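import Mathlib
import Pool.Agent.Y576.CC.Ultra

/-!
# Joint independence, several sequences for each ultrafilter

To every `x : ℕ → Bool` an ultrafilter `pt x` on `ℕ` is attached, in such a way that for every
countable set of finite tuples of sequences, attached to different points `x`, the members with
indices in suitable elements of the ultrafilters are jointly independent.
-/

namespace Pool.Agent.K4H91.CP

open Module Submodule
open Pool.Agent.Y576.CC (greedy linearIndepOn_greedy card_not_greedy Ad Ad_infinite Ad_inter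
  exists_Ad)

variable {k V : Type*} [Field k] [AddCommGroup V] [Module k V]

/-! ### Flattening -/

/-- the number of vectors before the `m`-th group -/
def S (s : ℕ → ℕ) (m : ℕ) : ℕ := ∑ i ∈ Finset.range m, s i

theorem S_succ (s : ℕ → ℕ) (m : ℕ) : S s (m + 1) = S s m + s m := Finset.sum_range_succ _ _

theorem S_mono (s : ℕ → ℕ) : Monotone (S s) :=
  monotone_nat_of_le_succ fun m => by rw [S_succ]; omega

theorem pos_inj {s : ℕ → ℕ} {m m' j j' : ℕ} (hj : j < s m) (hj' : j' < s m')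
    (h : S s m + j = S s m' + j') : m = m' ∧ j = j' := by
  rcases lt_trichotomy m m' with h1 | h1 | h1
  · have := S_mono s (Nat.succ_le_of_lt h1)
    rw [Nat.succ_eq_add_one, S_succ] at this
    omega
  · subst h1
    exact ⟨rfl, by omega⟩
  · have := S_mono s (Nat.succ_le_of_lt h1)
    rw [Nat.succ_eq_add_one, S_succ] at this
    omega

theorem exists_pos (s : ℕ → ℕ) {a b t : ℕ} (hab : a ≤ b) (ha : S s a ≤ t) (hb : t < S s b) :
    ∃ x : ℕ × ℕ, (a ≤ x.1 ∧ x.1 < b ∧ x.2 < s x.1) ∧ S s x.1 + x.2 = t := by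
  induction b, hab using Nat.le_induction with
  | base => omega
  | succ b hab ih =>
    by_cases h : t < S s b
    · obtain ⟨x, ⟨h1, h2, h3⟩, h4⟩ := ih h
      exact ⟨x, ⟨h1, by omega, h3⟩, h4⟩
    · rw [S_succ] at hb
      exact ⟨(b, t - S s b), ⟨hab, by simp, by simp only; omega⟩, by simp only; omega⟩

open Classical in
/-- the flattened sequence -/
noncomputable def flat (s : ℕ → ℕ) (v : ℕ → ℕ → V) (t : ℕ) : V :=
  if h : ∃ x : ℕ × ℕ, x.2 < s x.1 ∧ S s x.1 + x.2 = t then v h.choose.1 h.choose.2 else 0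

theorem flat_eq {s : ℕ → ℕ} (v : ℕ → ℕ → V) {m j : ℕ} (hj : j < s m) :
    flat s v (S s m + j) = v m j := by
  have h : ∃ x : ℕ × ℕ, x.2 < s x.1 ∧ S s x.1 + x.2 = S s m + j := ⟨(m, j), hj, rfl⟩
  obtain ⟨h1, h2⟩ := pos_inj h.choose_spec.1 hj h.choose_spec.2
  unfold flat
  rw [dif_pos h, h1, h2]

/-- the groups all of whose vectors are greedy in the flattened sequence -/
def Good (k : Type*) {V : Type*} [Field k] [AddCommGroup V] [Module k V] (s : ℕ → ℕ)
    (v : ℕ → ℕ → V) : Set ℕ := {m | ∀ j < s m, S s m + j ∈ greedy k (flat s v)}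

theorem indep_good (s : ℕ → ℕ) (v : ℕ → ℕ → V) :
    LinearIndependent k
      (fun x : {x : ℕ × ℕ // x.1 ∈ Good k s v ∧ x.2 < s x.1} => v x.1.1 x.1.2) := by
  have h1 : LinearIndependent k (fun x : greedy k (flat s v) => flat s v x) :=
    linearIndepOn_greedy (flat s v)
  let g : {x : ℕ × ℕ // x.1 ∈ Good k s v ∧ x.2 < s x.1} → greedy k (flat s v) :=
    fun x => ⟨S s x.1.1 + x.1.2, x.2.1 _ x.2.2⟩
  have hg : Function.Injective g := by
    rintro ⟨⟨m, j⟩, h⟩ ⟨⟨m', j'⟩, h'⟩ heq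
    obtain ⟨rfl, rfl⟩ := pos_inj h.2 h'.2 (congrArg Subtype.val heq)
    rfl
  have h2 := h1.comp g hg
  have h3 : (fun x : {x : ℕ × ℕ // x.1 ∈ Good k s v ∧ x.2 < s x.1} => v x.1.1 x.1.2) =
      (fun x : greedy k (flat s v) => flat s v x) ∘ g := by
    funext x
    exact (flat_eq v x.2.2).symm
  rw [h3]
  exact h2

theorem card_bad {s : ℕ → ℕ} {v : ℕ → ℕ → V} {a b : ℕ} (hab : a ≤ b)
    (h : LinearIndependent k
      (fun x : {x : ℕ × ℕ // a ≤ x.1 ∧ x.1 < b ∧ x.2 < s x.1} => v x.1.1 x.1.2)) :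
    (Set.Ico a b \ Good k s v).ncard ≤ S s a := by
  classical
  have h1 : LinearIndepOn k (flat s v) (Set.Ico (S s a) (S s b)) := by
    have hx : ∀ t : Set.Ico (S s a) (S s b), ∃ x : ℕ × ℕ,
        (a ≤ x.1 ∧ x.1 < b ∧ x.2 < s x.1) ∧ S s x.1 + x.2 = t := fun t =>
      exists_pos s hab t.2.1 t.2.2
    choose x hx1 hx2 using hx
    let g : Set.Ico (S s a) (S s b) → {x : ℕ × ℕ // a ≤ x.1 ∧ x.1 < b ∧ x.2 < s x.1} :=
      fun t => ⟨x t, hx1 t⟩
    have hg : Function.Injective g := by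
      intro t t' heq
      have h2 : x t = x t' := congrArg Subtype.val heq
      apply Subtype.ext
      rw [← hx2 t, ← hx2 t', h2]
    have h2 := h.comp g hg
    have h3 : (fun t : Set.Ico (S s a) (S s b) => flat s v t) =
        (fun x : {x : ℕ × ℕ // a ≤ x.1 ∧ x.1 < b ∧ x.2 < s x.1} => v x.1.1 x.1.2) ∘ g := by
      funext t
      have := flat_eq v (hx1 t).2.2
      rw [hx2 t] at this
      exact this
    show LinearIndependent k (fun t : Set.Ico (S s a) (S s b) => flat s v t)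
    rw [h3]
    exact h2
  have h2 := card_not_greedy (flat s v) h1
  refine le_trans ?_ h2
  have hb : ∀ m ∈ Set.Ico a b \ Good k s v, ∃ j < s m, S s m + j ∉ greedy k (flat s v) := by
    intro m hm
    have := hm.2
    simp only [Good, Set.mem_ofPred_eq, not_forall] at this
    obtain ⟨j, hj, hj'⟩ := this
    exact ⟨j, hj, hj'⟩
  choose! j hj1 hj2 using hb
  refine Set.ncard_le_ncard_of_injOn (fun m => S s m + j m) ?_ ?_
    ((Set.finite_Ico _ _).subset Set.sdiff_subset)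
  · intro m hm
    refine ⟨⟨?_, ?_⟩, hj2 m hm⟩
    · exact (S_mono s hm.1.1).trans (Nat.le_add_right _ _)
    · have h3 := S_mono s (Nat.succ_le_of_lt hm.1.2)
      rw [Nat.succ_eq_add_one, S_succ] at h3
      have := hj1 m hm
      omega
  · intro m hm m' hm' heq
    exact (pos_inj (hj1 m hm) (hj1 m' hm') heq).1

/-! ### The intervals -/

/-- the left end of the `n`-th interval -/
def a (n : ℕ) : ℕ := (n + 1).factorial ^ 2

theorem a_pos (n : ℕ) : 0 < a n := pow_pos (Nat.factorial_pos _) _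

theorem a_succ (n : ℕ) : a (n + 1) = (n + 2) ^ 2 * a n := by
  simp [a, Nat.factorial_succ, mul_pow]

theorem a_lt (n : ℕ) : a n < a (n + 1) := by
  rw [a_succ]
  have h1 := a_pos n
  have h2 : 2 ≤ (n + 2) ^ 2 :=
    (by norm_num : 2 ≤ 2 ^ 2).trans (Nat.pow_le_pow_left (by omega) 2)
  calc a n < 2 * a n := by omega
    _ ≤ (n + 2) ^ 2 * a n := Nat.mul_le_mul_right _ h2

theorem a_strictMono : StrictMono a := strictMono_nat_of_lt_succ a_lt

/-- the intervals -/
def I (n : ℕ) : Set ℕ := Set.Ico (a n) (a (n + 1))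

theorem I_finite (n : ℕ) : (I n).Finite := Set.finite_Ico _ _

theorem I_card (n : ℕ) : (I n).ncard = (n + 3) * ((n + 1) * a n) := by
  rw [I, Set.ncard_eq_toFinset_card', Set.toFinset_Ico, Nat.card_Ico, a_succ]
  have : (n + 2) ^ 2 * a n = (n + 3) * ((n + 1) * a n) + a n := by ring
  omega

theorem I_disj {m n i : ℕ} (hm : i ∈ I m) (hn : i ∈ I n) : m = n := by
  rcases lt_trichotomy m n with h | h | h
  · have h1 : a (m + 1) ≤ a n := a_strictMono.monotone h
    exact absurd (hm.2.trans_le h1) (not_lt.2 hn.1)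
  · exact h
  · have h1 : a (n + 1) ≤ a m := a_strictMono.monotone h
    exact absurd (hn.2.trans_le h1) (not_lt.2 hm.1)

theorem le_of_mem_I {n i : ℕ} (h : i ∈ I n) : n ≤ i :=
  (a_strictMono.le_apply).trans h.1

/-! ### The filters -/

/-- the filter attached to `x` -/
def fil (x : ℕ → Bool) : Filter ℕ where
  sets := {U | ∃ k, ∀ n ∈ Ad x, k ≤ n → (I n \ U).ncard ≤ k * ((n + 1) * a n)}
  univ_sets := ⟨0, fun n _ _ => by simp⟩
  sets_of_superset := by
    rintro U V ⟨k, hk⟩ hUV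
    exact ⟨k, fun n hn hkn => (Set.ncard_le_ncard (Set.sdiff_subset_sdiff_right hUV)
      ((I_finite n).subset Set.sdiff_subset)).trans (hk n hn hkn)⟩
  inter_sets := by
    rintro U V ⟨k, hk⟩ ⟨l, hl⟩
    refine ⟨k + l, fun n hn hkn => ?_⟩
    rw [Set.sdiff_inter, add_mul]
    exact (Set.ncard_union_le _ _).trans (add_le_add (hk n hn (by omega)) (hl n hn (by omega)))

theorem mem_fil {x : ℕ → Bool} {U : Set ℕ} :
    U ∈ fil x ↔ ∃ k, ∀ n ∈ Ad x, k ≤ n → (I n \ U).ncard ≤ k * ((n + 1) * a n) := Iff.rfl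

instance fil_neBot (x : ℕ → Bool) : (fil x).NeBot := by
  rw [Filter.neBot_iff]
  intro hbot
  have : (∅ : Set ℕ) ∈ fil x := by rw [hbot]; trivial
  obtain ⟨k, hk⟩ := mem_fil.1 this
  obtain ⟨n, hn, hkn⟩ := exists_Ad (x := x) k
  have h1 := hk n hn hkn.le
  rw [Set.sdiff_empty, I_card] at h1
  have h2 := Nat.le_of_mul_le_mul_right h1 (Nat.mul_pos (Nat.succ_pos n) (a_pos n))
  omega

theorem Ioi_mem_fil (x : ℕ → Bool) (N : ℕ) : Set.Ioi N ∈ fil x := by
  refine mem_fil.2 ⟨N + 1, fun n _ hn => ?_⟩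
  have : I n \ Set.Ioi N = ∅ := by
    ext i
    simp only [Set.mem_sdiff, Set.mem_Ioi, not_lt, Set.mem_empty_iff_false, iff_false, not_and,
      not_le]
    intro hi
    have := le_of_mem_I hi
    omega
  rw [this]
  simp

/-- the ultrafilter attached to `x` -/
noncomputable def pt (x : ℕ → Bool) : Ultrafilter ℕ := Ultrafilter.of (fil x)

theorem mem_pt {x : ℕ → Bool} {U : Set ℕ} (h : U ∈ fil x) : U ∈ pt x := Ultrafilter.of_le (fil x) h

theorem pt_le_atTop (x : ℕ → Bool) : (pt x : Filter ℕ) ≤ Filter.atTop := by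
  rw [Filter.atTop_basis_Ioi.ge_iff]
  intro N _
  exact mem_pt (Ioi_mem_fil x N)

/-! ### Joint independence -/

theorem S_le {s : ℕ → ℕ} (hs : ∀ n, ∀ m ∈ I n, s m ≤ n) (hs0 : ∀ m, (∀ n, m ∉ I n) → s m = 0)
    (n : ℕ) : S s (a n) ≤ (n + 1) * a n := by
  have h1 : ∀ m ∈ Finset.range (a n), s m ≤ n + 1 := by
    intro m hm
    by_cases h : ∃ n', m ∈ I n'
    · obtain ⟨n', hn'⟩ := h
      have h2 := hs n' m hn'
      have h3 : n' < n := by
        by_contra hcon
        have h4 : a n ≤ a n' := a_strictMono.monotone (not_lt.1 hcon)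
        have h5 := Finset.mem_range.1 hm
        have h6 := hn'.1
        omega
      omega
    · push Not at h
      rw [hs0 m h]
      omega
  calc S s (a n) ≤ ∑ _i ∈ Finset.range (a n), (n + 1) := Finset.sum_le_sum h1
    _ = (n + 1) * a n := by simp [mul_comm]

theorem exists_indep {D : Type*} [Countable D] {τ : D → ℕ → Bool} (hτ : Function.Injective τ)
    (sz : D → ℕ) {h : ∀ d : D, Fin (sz d) → ℕ → V}
    (hh : ∀ d, LinearIndependent k (fun x : Fin (sz d) × ℕ => h d x.1 x.2)) :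
    ∃ U : D → Set ℕ, (∀ d, U d ∈ fil (τ d)) ∧
      LinearIndependent k (fun x : Σ d, Fin (sz d) × U d => h x.1 x.2.1 x.2.2) := by
  classical
  obtain ⟨e, he⟩ := exists_injective_nat D
  -- thin out the almost disjoint family
  have hK : ∀ d : D, ∃ K, sz d ≤ K ∧
      ∀ d' : D, e d' < e d → ∀ n ∈ Ad (τ d) ∩ Ad (τ d'), n < K := by
    intro d
    have hfin : (⋃ d' ∈ {d' : D | e d' < e d}, Ad (τ d) ∩ Ad (τ d')).Finite := by
      refine Set.Finite.biUnion ?_ ?_
      · exact Set.Finite.of_injOn (f := e) (t := Set.Iio (e d)) (fun x hx => hx)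
          he.injOn (Set.finite_Iio _)
      · intro d' hd'
        refine Ad_inter fun hcon => ?_
        have : d = d' := hτ hcon
        subst this
        exact lt_irrefl (e d) hd'
    obtain ⟨K, hK⟩ := hfin.bddAbove
    refine ⟨K + 1 + sz d, by omega, fun d' hd' n hn => ?_⟩
    have : n ≤ K := hK (Set.mem_biUnion (show d' ∈ {d' : D | e d' < e d} from hd') hn)
    omega
  choose K hK1 hK using hK
  let A : D → Set ℕ := fun d => {n | n ∈ Ad (τ d) ∧ K d ≤ n}
  have hA : ∀ {d d' n}, n ∈ A d → n ∈ A d' → d = d' := by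
    intro d d' n hn hn'
    rcases lt_trichotomy (e d) (e d') with h1 | h1 | h1
    · exact absurd (hK d' d h1 n ⟨hn'.1, hn.1⟩) (not_lt.2 hn'.2)
    · exact he h1
    · exact absurd (hK d d' h1 n ⟨hn.1, hn'.1⟩) (not_lt.2 hn.2)
  -- the combined sequence
  let P : ℕ → D → Prop := fun m d => ∃ n ∈ A d, m ∈ I n
  have hP : ∀ {m d d'}, P m d → P m d' → d = d' := by
    rintro m d d' ⟨n, hn, hm⟩ ⟨n', hn', hm'⟩
    have := I_disj hm hm'
    subst this
    exact hA hn hn'
  let s : ℕ → ℕ := fun m => if hm : ∃ d, P m d then sz hm.choose else 0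
  have hs : ∀ {m d}, P m d → s m = sz d := by
    intro m d hm
    have h1 : ∃ d, P m d := ⟨d, hm⟩
    have h2 : h1.choose = d := hP h1.choose_spec hm
    show (if hm : ∃ d, P m d then sz hm.choose else 0) = sz d
    rw [dif_pos h1, h2]
  have hs0 : ∀ {m}, (¬ ∃ d, P m d) → s m = 0 := by
    intro m hm
    exact dif_neg hm
  let v : ℕ → ℕ → V := fun m j =>
    if hm : ∃ d, P m d then (if hj : j < sz hm.choose then h hm.choose ⟨j, hj⟩ m else 0) else 0
  have hv : ∀ {m d}, P m d → ∀ j : Fin (sz d), v m j = h d j m := by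
    intro m d hm j
    have h1 : ∃ d, P m d := ⟨d, hm⟩
    have h2 : h1.choose = d := hP h1.choose_spec hm
    show (if hm : ∃ d, P m d then (if hj : (j : ℕ) < sz hm.choose then h hm.choose ⟨j, hj⟩ m else 0)
      else 0) = h d j m
    rw [dif_pos h1]
    have h3 : ∀ d' : D, d' = d →
        (if hj : (j : ℕ) < sz d' then h d' ⟨j, hj⟩ m else 0) = h d j m := by
      rintro d' rfl
      rw [dif_pos j.2]
    exact h3 _ h2
  have hsI : ∀ n, ∀ m ∈ I n, s m ≤ n := by
    intro n m hm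
    by_cases h1 : ∃ d, P m d
    · obtain ⟨d, hd⟩ := h1
      rw [hs hd]
      obtain ⟨n', hn', hm'⟩ := hd
      have := I_disj hm hm'
      subst this
      exact (hK1 d).trans hn'.2
    · rw [hs0 h1]
      omega
  have hs0' : ∀ m, (∀ n, m ∉ I n) → s m = 0 := by
    intro m hm
    apply hs0
    rintro ⟨d, n, _, hn⟩
    exact hm n hn
  let U : D → Set ℕ := fun d => {m | m ∈ Good k s v ∧ P m d}
  refine ⟨U, fun d => ?_, ?_⟩
  · refine mem_fil.2 ⟨K d + 1, fun n hn hkn => ?_⟩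
    have hnA : n ∈ A d := ⟨hn, by omega⟩
    have hPn : ∀ m ∈ I n, P m d := fun m hm => ⟨n, hnA, hm⟩
    have h1 : I n \ U d ⊆ I n \ Good k s v := by
      rintro m ⟨hm1, hm2⟩
      exact ⟨hm1, fun hcon => hm2 ⟨hcon, n, hnA, hm1⟩⟩
    have h2 : LinearIndependent k (fun x : {x : ℕ × ℕ // a n ≤ x.1 ∧ x.1 < a (n + 1) ∧
        x.2 < s x.1} => v x.1.1 x.1.2) := by
      have hj : ∀ x : {x : ℕ × ℕ // a n ≤ x.1 ∧ x.1 < a (n + 1) ∧ x.2 < s x.1},
          x.1.2 < sz d := fun x => by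
        have h3 := x.2.2.2
        rwa [hs (hPn x.1.1 ⟨x.2.1, x.2.2.1⟩)] at h3
      let g : {x : ℕ × ℕ // a n ≤ x.1 ∧ x.1 < a (n + 1) ∧ x.2 < s x.1} → Fin (sz d) × ℕ :=
        fun x => (⟨x.1.2, hj x⟩, x.1.1)
      have hg : Function.Injective g := by
        rintro ⟨⟨m, j⟩, hx⟩ ⟨⟨m', j'⟩, hx'⟩ heq
        have e1 : m = m' := congrArg Prod.snd heq
        have e2 : j = j' := congrArg (fun y => (y.1 : ℕ)) heq
        subst e1
        subst e2
        rfl
      have h3 := (hh d).comp g hg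
      have h4 : (fun x : {x : ℕ × ℕ // a n ≤ x.1 ∧ x.1 < a (n + 1) ∧ x.2 < s x.1} =>
          v x.1.1 x.1.2) = (fun x : Fin (sz d) × ℕ => h d x.1 x.2) ∘ g := by
        funext x
        exact hv (hPn x.1.1 ⟨x.2.1, x.2.2.1⟩) ⟨x.1.2, hj x⟩
      rw [h4]
      exact h3
    calc (I n \ U d).ncard ≤ (I n \ Good k s v).ncard :=
          Set.ncard_le_ncard h1 ((I_finite n).subset Set.sdiff_subset)
      _ ≤ S s (a n) := card_bad (a_lt n).le h2
      _ ≤ (n + 1) * a n := S_le hsI hs0' n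
      _ ≤ (K d + 1) * ((n + 1) * a n) := Nat.le_mul_of_pos_left _ (by omega)
  · have h1 := indep_good (k := k) s v
    let g : (Σ d, Fin (sz d) × U d) → {x : ℕ × ℕ // x.1 ∈ Good k s v ∧ x.2 < s x.1} :=
      fun x => ⟨(x.2.2, x.2.1), x.2.2.2.1, by
        have := x.2.1.2
        show (x.2.1 : ℕ) < s x.2.2
        rw [hs x.2.2.2.2]
        exact this⟩
    have hg : Function.Injective g := by
      rintro ⟨d, j, m, hm⟩ ⟨d', j', m', hm'⟩ heq
      have h2 : m = m' := congrArg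
        (fun z : {x : ℕ × ℕ // x.1 ∈ Good k s v ∧ x.2 < s x.1} => z.1.1) heq
      have h2' : (j : ℕ) = j' := congrArg
        (fun z : {x : ℕ × ℕ // x.1 ∈ Good k s v ∧ x.2 < s x.1} => z.1.2) heq
      subst h2
      have h3 : d = d' := hP hm.2 hm'.2
      subst h3
      have h4 : j = j' := Fin.ext h2'
      subst h4
      rfl
    have h2 := h1.comp g hg
    have h3 : (fun x : Σ d, Fin (sz d) × U d => h x.1 x.2.1 x.2.2) =
        (fun x : {x : ℕ × ℕ // x.1 ∈ Good k s v ∧ x.2 < s x.1} => v x.1.1 x.1.2) ∘ g := by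
      funext x
      exact (hv x.2.2.2.2 x.2.1).symm
    rw [h3]
    exact h2

end Pool.Agent.K4H91.CP
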