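import Mathlib
import Pool.Agent.Y576.CC.Build
import Pool.Agent.K4H91.CP1

/-!
# The recursive construction, with finitely many new generators at each stage
-/

namespace Pool.Agent.K4H91.CP

open Module Submodule Cardinal
open Pool.Agent.Y576.CC (plim plim_spec plim_eq plim_congr plim_inj zmod2 Idx mk_Idx mk_Iio_Idx
  exists_functional τ)

/-! ### The compact group -/

/-- the base generators: countably many sequences -/
abbrev B : Type := ℕ × ℕ

/-- the characters of the free Boolean group on the base generators -/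
abbrev H : Type := B → ZMod 2

/-- the compact group -/
abbrev K : Type := H → ZMod 2

/-- the limit of the `i`-th base sequence along `q` -/
noncomputable def E (q : Ultrafilter ℕ) (i : ℕ) : K := fun φ => plim q fun n => φ (i, n)

/-- coordinatewise limit -/
noncomputable def plimK (p : Ultrafilter ℕ) (s : ℕ → K) : K := fun φ => plim p fun n => s n φ

/-- a test character -/
def test (i : ℕ) (u : ℕ → ZMod 2) : H := fun b => if b.1 = i then u b.2 else 0

theorem E_test (q : Ultrafilter ℕ) (i : ℕ) (u : ℕ → ZMod 2) : E q i (test i u) = plim q u := by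
  simp [E, test]

theorem E_test' (q : Ultrafilter ℕ) {i j : ℕ} (h : j ≠ i) (u : ℕ → ZMod 2) :
    E q j (test i u) = 0 := by
  apply plim_eq
  have : {n : ℕ | test i u (j, n) = 0} = Set.univ := by
    ext n
    simp [test, h]
  rw [this]
  exact Filter.univ_mem

/-- combinations of the limits of the base sequences along one ultrafilter -/
noncomputable def EL (q : Ultrafilter ℕ) (l : ℕ →₀ ZMod 2) : K :=
  Finsupp.linearCombination (ZMod 2) (E q) l

theorem EL_single (q : Ultrafilter ℕ) (i : ℕ) : EL q (Finsupp.single i 1) = E q i := by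
  simp [EL]

theorem EL_test (q : Ultrafilter ℕ) (l : ℕ →₀ ZMod 2) (i : ℕ) (u : ℕ → ZMod 2) :
    EL q l (test i u) = l i * plim q u := by
  rw [EL, Finsupp.linearCombination_apply, Finsupp.sum, Finset.sum_apply]
  rw [Finset.sum_eq_single i]
  · rw [Pi.smul_apply, E_test, smul_eq_mul]
  · intro j _ hj
    rw [Pi.smul_apply, E_test' q hj, smul_zero]
  · intro hi
    rw [Finsupp.notMem_support_iff.1 hi, zero_smul]
    rfl

theorem exists_one {l : ℕ →₀ ZMod 2} (hl : l ≠ 0) : ∃ i, l i = 1 := by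
  obtain ⟨i, hi⟩ := Finsupp.ne_iff.1 hl
  exact ⟨i, (zmod2 (l i)).resolve_left (by simpa using hi)⟩

theorem EL_inj {q q' : Ultrafilter ℕ} {l : ℕ →₀ ZMod 2} (hl : l ≠ 0) (h : EL q l = EL q' l) :
    q = q' := by
  obtain ⟨i, hi⟩ := exists_one hl
  refine plim_inj fun u => ?_
  have := congrFun h (test i u)
  rw [EL_test, EL_test, hi, one_mul, one_mul] at this
  exact this

theorem add_self (x : K) : x + x = 0 := by
  funext φ
  exact CharTwo.add_self_eq_zero _

/-! ### The vector space of names -/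

section
variable (sz : Idx → ℕ)

/-- the generators: the base generators, and `sz α` generators at stage `α` -/
abbrev Gen : Type := B ⊕ (Σ α : Idx, Fin (sz α))

/-- the space of names -/
abbrev V : Type := Gen sz →₀ ZMod 2

/-- choices of points for the generators of all stages -/
abbrev Pts : Type := (α : Idx) → Fin (sz α) → K

end

variable {sz : Idx → ℕ}

/-- the evaluation of names -/
noncomputable def ev (z : Pts sz) : V sz →ₗ[ZMod 2] K :=
  Finsupp.linearCombination (ZMod 2) (Sum.elim (fun b φ => φ b) fun x => z x.1 x.2)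

theorem ev_inl (z : Pts sz) (b : B) : ev z (Finsupp.single (Sum.inl b) 1) = fun φ => φ b := by
  simp [ev]

theorem ev_inr (z : Pts sz) (α : Idx) (j : Fin (sz α)) :
    ev z (Finsupp.single (Sum.inr ⟨α, j⟩) 1) = z α j := by
  simp [ev]

/-- the names which only use stages below `α` -/
def Low (α : Idx) (v : V sz) : Prop := ∀ β, α ≤ β → ∀ j, v (Sum.inr ⟨β, j⟩) = 0

theorem ev_congr {z z' : Pts sz} {v : V sz}
    (h : ∀ β j, v (Sum.inr ⟨β, j⟩) ≠ 0 → z β j = z' β j) : ev z v = ev z' v := by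
  rw [ev, ev, Finsupp.linearCombination_apply, Finsupp.linearCombination_apply]
  refine Finsupp.sum_congr fun x hx => ?_
  rcases x with b | ⟨β, j⟩
  · rfl
  · simp only [Sum.elim_inr]
    rw [h β j (Finsupp.mem_support_iff.1 hx)]

theorem ev_congr_low {z z' : Pts sz} {v : V sz} {α : Idx} (hv : Low α v)
    (h : ∀ β < α, z β = z' β) : ev z v = ev z' v :=
  ev_congr fun β j hβ => congrFun (h β (by
    by_contra hcon
    exact hβ (hv β (not_lt.1 hcon) j))) j

theorem mk_Low (α : Idx) : #{v : V sz // Low α v} < 𝔠 := by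
  classical
  let s : Set (Gen sz) := {x | Sum.elim (fun _ => True) (fun y => y.1 < α) x}
  have h1 : #s < 𝔠 := by
    have h2 : s = Set.range (Sum.inl : B → Gen sz) ∪
        Sum.inr '' {y : Σ α : Idx, Fin (sz α) | y.1 < α} := by
      ext x
      rcases x with b | β
      · simp [s]
      · simp [s]
    rw [h2]
    refine (mk_union_le _ _).trans_lt (add_lt_of_lt aleph0_le_continuum ?_ ?_)
    · refine (mk_range_le).trans_lt ?_
      exact (mk_le_aleph0_iff.2 inferInstance).trans_lt aleph0_lt_continuum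
    · refine mk_image_le.trans_lt ?_
      have h3 : #(Set.Iio α × ℕ) < 𝔠 := by
        rw [mk_prod, lift_id, lift_id]
        exact mul_lt_of_lt aleph0_le_continuum (mk_Iio_Idx α)
          ((mk_le_aleph0_iff.2 inferInstance).trans_lt aleph0_lt_continuum)
      refine lt_of_le_of_lt ?_ h3
      refine mk_le_of_injective (f := fun y : {y : Σ α : Idx, Fin (sz α) | y.1 < α} =>
        ((⟨y.1.1, y.2⟩ : Set.Iio α), (y.1.2 : ℕ))) ?_
      rintro ⟨⟨β, j⟩, hy⟩ ⟨⟨β', j'⟩, hy'⟩ heq
      have e1 : β = β' := congrArg (fun w => (w.1 : Idx)) heq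
      subst e1
      have e2 : j = j' := Fin.ext (congrArg Prod.snd heq)
      subst e2
      rfl
  have hinf : Infinite s := by
    refine Infinite.of_injective (fun n : ℕ => (⟨Sum.inl (0, n), trivial⟩ : s)) ?_
    intro m n hmn
    have := congrArg Subtype.val hmn
    simpa using this
  have h3 : #(s →₀ ZMod 2) < 𝔠 := by
    rw [mk_finsupp_of_infinite]
    exact max_lt h1 ((lt_aleph0_of_finite _).trans aleph0_lt_continuum)
  refine lt_of_le_of_lt ?_ h3
  refine mk_le_of_injective (f := fun v : {v : V sz // Low α v} =>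
    (Finsupp.comapDomain (Subtype.val : s → Gen sz) v.1 Subtype.val_injective.injOn)) ?_
  intro v w hvw
  apply Subtype.ext
  ext x
  by_cases hx : x ∈ s
  · have := DFunLike.congr_fun hvw (⟨x, hx⟩ : s)
    simpa using this
  · rcases x with b | ⟨β, j⟩
    · exact absurd trivial hx
    · have hβ : α ≤ β := not_lt.1 hx
      rw [v.2 β hβ, w.2 β hβ]

/-! ### The requirements -/

/-- the ultrafilters available at stage `α` -/
noncomputable def up (α ξ : Idx) : Ultrafilter ℕ := pt (τ (α, ξ))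

/-- a system of finite tuples of sequences of names -/
structure Sys (f : (α : Idx) → Fin (sz α) → ℕ → V sz) : Prop where
  ind : ∀ α, LinearIndependent (ZMod 2) fun x : Fin (sz α) × ℕ => f α x.1 x.2
  low : ∀ α j n, Low α (f α j n)

/-- the points obtained at stage `α` with the `ξ`-th ultrafilter -/
noncomputable def W (f : (α : Idx) → Fin (sz α) → ℕ → V sz) (z : Pts sz) (α ξ : Idx) :
    Fin (sz α) → K := fun j => plimK (up α ξ) fun n => ev z (f α j n)

/-- combinations -/
noncomputable def comb {m : ℕ} (ε : Fin m → ZMod 2) (w : Fin m → K) : K := ∑ j, ε j • w j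

/-- the forbidden points -/
def Forb (z : Pts sz) (u : K) (g h : V sz) (l l' : ℕ →₀ ZMod 2) : Prop :=
  l ≠ 0 ∧ ∃ q : Ultrafilter ℕ, ev z h = EL q l ∧ u = ev z g + EL q l'

theorem forb_unique {z : Pts sz} {u u' : K} {g h : V sz} {l l' : ℕ →₀ ZMod 2}
    (h1 : Forb z u g h l l') (h2 : Forb z u' g h l l') : u = u' := by
  obtain ⟨h0, q, h3, h4⟩ := h1
  obtain ⟨_, q', h5, h6⟩ := h2
  have hq : q = q' := EL_inj h0 (h3.symm.trans h5)
  subst hq
  rw [h4, h6]

/-- all stages reached from `α` -/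
theorem exists_closed {f : (α : Idx) → Fin (sz α) → ℕ → V sz} (hf : Sys f) (α : Idx) :
    ∃ D : Set Idx, D.Countable ∧ (∀ β ∈ D, β < α) ∧
      (∀ i n β j, f α i n (Sum.inr ⟨β, j⟩) ≠ 0 → β ∈ D) ∧
      ∀ β ∈ D, ∀ i n γ j, f β i n (Sum.inr ⟨γ, j⟩) ≠ 0 → γ ∈ D := by
  induction α using WellFoundedLT.induction with
  | _ α ih =>
    have hlow : ∀ i n β j, f α i n (Sum.inr ⟨β, j⟩) ≠ 0 → β < α := by
      intro i n β j h
      by_contra hcon
      exact h (hf.low α i n β (not_lt.1 hcon) j)
    choose! D h1 h2 h3 h4 using ih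
    refine ⟨⋃ x : Fin (sz α) × ℕ, ⋃ β ∈ {β | ∃ j, f α x.1 x.2 (Sum.inr ⟨β, j⟩) ≠ 0},
      insert β (D β), ?_, ?_, ?_, ?_⟩
    · refine Set.countable_iUnion fun x => Set.Countable.biUnion ?_ fun β hβ => ?_
      · have : {β | ∃ j, f α x.1 x.2 (Sum.inr ⟨β, j⟩) ≠ 0} ⊆
            (fun y : Σ α : Idx, Fin (sz α) => y.1) ''
              (Sum.inr ⁻¹' ((f α x.1 x.2).support : Set (Gen sz))) := by
          rintro β ⟨j, hj⟩
          exact ⟨⟨β, j⟩, by simpa using hj, rfl⟩
        exact (((f α x.1 x.2).support.finite_toSet.preimage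
          Sum.inr_injective.injOn).image _).countable.mono this
      · obtain ⟨j, hj⟩ := hβ
        exact (h1 β (hlow x.1 x.2 β j hj)).insert β
    · intro γ hγ
      simp only [Set.mem_iUnion] at hγ
      obtain ⟨x, β, ⟨j, hj⟩, hγ⟩ := hγ
      have hβ' := hlow x.1 x.2 β j hj
      rcases hγ with rfl | hγ
      · exact hβ'
      · exact (h2 β hβ' γ hγ).trans hβ'
    · intro i n β j hβ
      simp only [Set.mem_iUnion]
      exact ⟨(i, n), β, ⟨j, hβ⟩, Set.mem_insert _ _⟩
    · intro β hβ i n γ j hγ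
      simp only [Set.mem_iUnion] at hβ ⊢
      obtain ⟨x, β', ⟨j', hβ'⟩, hβ⟩ := hβ
      have hlt := hlow x.1 x.2 β' j' hβ'
      refine ⟨x, β', ⟨j', hβ'⟩, Set.mem_insert_of_mem _ ?_⟩
      rcases hβ with rfl | hβ
      · exact h3 β hlt i n γ j hγ
      · exact h4 β' hlt β hβ i n γ j hγ

/-- adding the new generators keeps a tuple of sequences independent -/
theorem ind_add {f : (α : Idx) → Fin (sz α) → ℕ → V sz} (hf : Sys f) (β : Idx) :
    LinearIndependent (ZMod 2) fun x : Fin (sz β) × ℕ =>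
      f β x.1 x.2 + Finsupp.single (Sum.inr ⟨β, x.1⟩) 1 := by
  classical
  let F : Gen sz → V sz := fun x => if (∃ j, x = Sum.inr ⟨β, j⟩) then 0 else Finsupp.single x 1
  let π : V sz →ₗ[ZMod 2] V sz := Finsupp.linearCombination (ZMod 2) F
  have hπ : ∀ v, π v = v.sum fun x c => c • F x := fun v => Finsupp.linearCombination_apply _ v
  have hF : ∀ j, F (Sum.inr ⟨β, j⟩) = 0 := fun j => if_pos ⟨j, rfl⟩
  have hF' : ∀ x, (¬ ∃ j, x = Sum.inr ⟨β, j⟩) → F x = Finsupp.single x 1 := fun x hx => if_neg hx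
  apply LinearIndependent.of_comp π
  have h1 : ∀ j, π (Finsupp.single (Sum.inr ⟨β, j⟩) 1) = 0 := by
    intro j
    rw [hπ, Finsupp.sum_single_index (by rw [zero_smul]), hF, smul_zero]
  have h2 : ∀ i n, π (f β i n) = f β i n := by
    intro i n
    rw [hπ]
    conv_rhs => rw [← Finsupp.sum_single (f β i n)]
    refine Finsupp.sum_congr fun y hy => ?_
    have hy' := Finsupp.mem_support_iff.1 hy
    rw [hF', Finsupp.smul_single, smul_eq_mul, mul_one]
    rintro ⟨j, rfl⟩
    exact hy' (hf.low β i n β le_rfl j)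
  have : (π ∘ fun x : Fin (sz β) × ℕ => f β x.1 x.2 + Finsupp.single (Sum.inr ⟨β, x.1⟩) 1) =
      fun x : Fin (sz β) × ℕ => f β x.1 x.2 := by
    funext x
    rw [Function.comp_apply, map_add, h1, h2, add_zero]
  rw [this]
  exact hf.ind β

theorem separate {f : (α : Idx) → Fin (sz α) → ℕ → V sz} (hf : Sys f) {α : Idx} {z : Pts sz}
    (hz : ∀ β < α, ∃ ξ, z β = W f z β ξ) {ξ ξ' : Idx} {ε : Fin (sz α) → ZMod 2} (hε : ε ≠ 0)
    (heq : comb ε (W f z α ξ) = comb ε (W f z α ξ')) : ξ = ξ' := by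
  classical
  by_contra hne
  obtain ⟨j0, hj0⟩ := Function.ne_iff.1 hε
  have hj1 : ε j0 = 1 := (zmod2 (ε j0)).resolve_left (by simpa using hj0)
  obtain ⟨D, hD1, hD2, hD3, hD4⟩ := exists_closed hf α
  choose! x hx using hz
  have := hD1.to_subtype
  let t : D ⊕ Bool → Idx × Idx := Sum.elim (fun β => (β, x β)) fun b => (α, if b then ξ else ξ')
  have ht : Function.Injective t := by
    rintro (β | b) (β' | b') heq
    · have : (β : Idx) = β' := congrArg Prod.fst heq
      rw [Subtype.ext this]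
    · have : (β : Idx) = α := congrArg Prod.fst heq
      exact absurd this (hD2 β β.2).ne
    · have : α = (β' : Idx) := congrArg Prod.fst heq
      exact absurd this (hD2 β' β'.2).ne'
    · have : (if b then ξ else ξ') = if b' then ξ else ξ' := congrArg Prod.snd heq
      rcases b with _ | _ <;> rcases b' with _ | _
      · rfl
      · exact absurd (by simpa using this.symm) hne
      · exact absurd (by simpa using this) hne
      · rfl
  let szD : D ⊕ Bool → ℕ := Sum.elim (fun β => sz β) fun _ => sz α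
  let hh : (d : D ⊕ Bool) → Fin (szD d) → ℕ → V sz := fun d =>
    match d with
    | Sum.inl β => fun (j : Fin (sz β)) n => f β j n + Finsupp.single (Sum.inr ⟨(β : Idx), j⟩) 1
    | Sum.inr _ => f α
  have hhi : ∀ d, LinearIndependent (ZMod 2) fun x : Fin (szD d) × ℕ => hh d x.1 x.2 := by
    rintro (β | b)
    · exact ind_add hf β
    · exact hf.ind α
  obtain ⟨U, hU, hind⟩ := exists_indep (τ.injective.comp ht) szD hhi
  let cc : (Σ d, Fin (szD d) × U d) → ZMod 2 := fun y =>
    match y with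
    | ⟨Sum.inl _, _⟩ => 0
    | ⟨Sum.inr b, j, _⟩ => if b = true ∧ (j : Fin (sz α)) = j0 then 1 else 0
  obtain ⟨Ψ, hΨ⟩ := exists_functional hind cc
  let φ : H := fun b => Ψ (Finsupp.single (Sum.inl b) 1)
  -- the extension of `φ` agrees with `Ψ`
  have key1 : ∀ v : V sz,
      (∀ β j, v (Sum.inr ⟨β, j⟩) ≠ 0 → z β j φ = Ψ (Finsupp.single (Sum.inr ⟨β, j⟩) 1)) →
      ev z v φ = Ψ v := by
    intro v hv
    conv_rhs => rw [← Finsupp.sum_single v]
    rw [ev, Finsupp.linearCombination_apply, Finsupp.sum, Finsupp.sum, map_sum, Finset.sum_apply]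
    refine Finset.sum_congr rfl fun y hy => ?_
    have hy' := Finsupp.mem_support_iff.1 hy
    have e1 : (Finsupp.single y (v y) : V sz) = v y • Finsupp.single y 1 := by
      rw [Finsupp.smul_single, smul_eq_mul, mul_one]
    rw [e1, map_smul, Pi.smul_apply]
    rcases y with b | ⟨β, j⟩
    · rfl
    · simp only [Sum.elim_inr]
      rw [hv β j hy']
  have key2 : ∀ β ∈ D, ∀ j, z β j φ = Ψ (Finsupp.single (Sum.inr ⟨β, j⟩) 1) := by
    intro β
    induction β using WellFoundedLT.induction with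
    | _ β ih =>
      intro hβ j
      have h1 : z β j φ = plim (up β (x β)) fun n => ev z (f β j n) φ := by
        conv_lhs => rw [hx β (hD2 β hβ)]
        rfl
      rw [h1]
      apply plim_eq
      have h2 : U (Sum.inl ⟨β, hβ⟩) ∈ up β (x β) := mem_pt (hU (Sum.inl ⟨β, hβ⟩))
      filter_upwards [h2] with n hn
      have h3 : Ψ (f β j n + Finsupp.single (Sum.inr ⟨β, j⟩) 1) = 0 :=
        hΨ ⟨Sum.inl ⟨β, hβ⟩, j, n, hn⟩
      rw [map_add] at h3
      have h4 : ev z (f β j n) φ = Ψ (f β j n) := by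
        refine key1 _ fun γ i hγ => ih γ ?_ (hD4 β hβ j n γ i hγ) i
        by_contra hcon
        exact hγ (hf.low β j n γ (not_lt.1 hcon) i)
      show ev z (f β j n) φ = Ψ (Finsupp.single (Sum.inr ⟨β, j⟩) 1)
      rw [h4]
      exact CharTwo.add_eq_zero.1 h3
  have key3 : ∀ b : Bool, ∀ j : Fin (sz α), W f z α (if b then ξ else ξ') j φ =
      if b = true ∧ j = j0 then (1 : ZMod 2) else 0 := by
    intro b j
    show plim _ (fun n => ev z (f α j n) φ) = _
    apply plim_eq
    have h2 : U (Sum.inr b) ∈ up α (if b then ξ else ξ') := mem_pt (hU (Sum.inr b))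
    filter_upwards [h2] with n hn
    have h3 : Ψ (f α j n) = if b = true ∧ j = j0 then (1 : ZMod 2) else 0 :=
      hΨ ⟨Sum.inr b, j, n, hn⟩
    have h4 : ev z (f α j n) φ = Ψ (f α j n) :=
      key1 _ fun γ i hγ => key2 γ (hD3 j n γ i hγ) i
    show ev z (f α j n) φ = _
    rw [h4]
    exact h3
  have key4 : ∀ b : Bool, comb ε (W f z α (if b then ξ else ξ')) φ =
      if b = true then (1 : ZMod 2) else 0 := by
    intro b
    rw [comb, Finset.sum_apply, Finset.sum_eq_single j0]
    · rw [Pi.smul_apply, key3, hj1]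
      simp
    · intro j _ hj
      rw [Pi.smul_apply, key3, if_neg (fun h => hj h.2), smul_zero]
    · intro h
      exact absurd (Finset.mem_univ _) h
  have k1 := key4 true
  have k2 := key4 false
  simp only [if_true, Bool.false_eq_true, if_false] at k1 k2
  rw [← heq, k1] at k2
  exact one_ne_zero k2

/-- the requirement at stage `α` -/
def Req (f : (α : Idx) → Fin (sz α) → ℕ → V sz) (α : Idx) (z : Pts sz) (w : Fin (sz α) → K) :
    Prop :=
  (∃ ξ, w = W f z α ξ) ∧ ∀ g h : V sz, Low α g → Low α h → ∀ l l' : ℕ →₀ ZMod 2,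
    ∀ ε : Fin (sz α) → ZMod 2, ε ≠ 0 → ¬ Forb z (comb ε w) g h l l'

theorem exists_req {f : (α : Idx) → Fin (sz α) → ℕ → V sz} (hf : Sys f) {α : Idx} {z : Pts sz}
    (hz : ∀ β < α, ∃ ξ, z β = W f z β ξ) : ∃ w, Req f α z w := by
  classical
  by_contra hcon
  have h1 : ∀ ξ : Idx, ∃ x : {v : V sz // Low α v} × {v : V sz // Low α v} × (ℕ →₀ ZMod 2) ×
      (ℕ →₀ ZMod 2) × (Fin (sz α) → ZMod 2), x.2.2.2.2 ≠ 0 ∧
      Forb z (comb x.2.2.2.2 (W f z α ξ)) x.1 x.2.1 x.2.2.1 x.2.2.2.1 := by
    intro ξ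
    by_contra hc
    refine hcon ⟨_, ⟨ξ, rfl⟩, fun g h hg hh l l' ε hε hF => hc ⟨(⟨g, hg⟩, ⟨h, hh⟩, l, l', ε),
      hε, hF⟩⟩
  choose F hF0 hF using h1
  have hinj : Function.Injective F := by
    intro ξ ξ' h2
    have h3 := hF ξ'
    rw [← h2] at h3
    exact separate hf hz (hF0 ξ) (forb_unique (hF ξ) h3)
  have h5 := mk_le_of_injective hinj
  rw [mk_Idx] at h5
  have h6 : #({v : V sz // Low α v} × {v : V sz // Low α v} × (ℕ →₀ ZMod 2) ×
      (ℕ →₀ ZMod 2) × (Fin (sz α) → ZMod 2)) < 𝔠 := by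
    simp only [mk_prod, lift_id]
    have hz2 : #(ℕ →₀ ZMod 2) < 𝔠 := by
      refine lt_of_le_of_lt ?_ aleph0_lt_continuum
      exact mk_le_aleph0_iff.2 inferInstance
    have hz3 : #(Fin (sz α) → ZMod 2) < 𝔠 := (lt_aleph0_of_finite _).trans aleph0_lt_continuum
    exact mul_lt_of_lt aleph0_le_continuum (mk_Low α) (mul_lt_of_lt aleph0_le_continuum (mk_Low α)
      (mul_lt_of_lt aleph0_le_continuum hz2 (mul_lt_of_lt aleph0_le_continuum hz2 hz3)))
  exact absurd h5 (not_le.2 h6)

theorem W_congr {f : (α : Idx) → Fin (sz α) → ℕ → V sz} (hf : Sys f) {α : Idx} {z z' : Pts sz}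
    (h : ∀ β < α, z β = z' β) (ξ : Idx) : W f z α ξ = W f z' α ξ := by
  funext j
  unfold W
  have : (fun n => ev z (f α j n)) = fun n => ev z' (f α j n) := by
    funext n
    exact ev_congr_low (hf.low α j n) h
  rw [this]

theorem req_congr {f : (α : Idx) → Fin (sz α) → ℕ → V sz} (hf : Sys f) {α : Idx} {z z' : Pts sz}
    (h : ∀ β < α, z β = z' β) {w : Fin (sz α) → K} (hr : Req f α z w) : Req f α z' w := by
  obtain ⟨⟨ξ, h1⟩, h2⟩ := hr
  refine ⟨⟨ξ, h1.trans (W_congr hf h ξ)⟩, fun g h' hg hh l l' ε hε hF =>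
    h2 g h' hg hh l l' ε hε ?_⟩
  obtain ⟨h3, q, h4, h5⟩ := hF
  refine ⟨h3, q, ?_, ?_⟩
  · rw [ev_congr_low hh h]; exact h4
  · rw [ev_congr_low hg h]; exact h5

theorem exists_construction {f : (α : Idx) → Fin (sz α) → ℕ → V sz} (hf : Sys f) :
    ∃ z : Pts sz, ∀ α, Req f α z (z α) := by
  classical
  let ext : (α : Idx) → ((β : Idx) → β < α → Fin (sz β) → K) → Pts sz :=
    fun α g β => if h : β < α then g β h else 0
  let step : (α : Idx) → ((β : Idx) → β < α → Fin (sz β) → K) → Fin (sz α) → K := fun α g =>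
    if h : ∃ w, Req f α (ext α g) w then h.choose else 0
  let z : Pts sz := (wellFounded_lt (α := Idx)).fix step
  have hz : ∀ α, z α = step α fun β _ => z β := fun α => WellFounded.fix_eq _ _ _
  have hext : ∀ α β, β < α → ext α (fun β _ => z β) β = z β := fun α β h => dif_pos h
  refine ⟨z, fun α => ?_⟩
  induction α using WellFoundedLT.induction with
  | _ α ih =>
    have h1 : ∃ w, Req f α (ext α fun β _ => z β) w := by
      refine exists_req hf fun β hβ => ?_
      obtain ⟨ξ, hξ⟩ := (ih β hβ).1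
      refine ⟨ξ, ?_⟩
      rw [hext α β hβ]
      exact hξ.trans (W_congr hf (fun γ hγ => (hext α γ (hγ.trans hβ)).symm) ξ)
    have h2 : z α = h1.choose := by
      rw [hz α]
      exact dif_pos h1
    rw [h2]
    exact req_congr hf (fun β hβ => hext α β hβ) h1.choose_spec

end Pool.Agent.K4H91.CP
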