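import Mathlib
import Pool.Agent.K4H91.CP2

/-!
# No common limits
-/

namespace Pool.Agent.K4H91.CP

open Module Submodule Cardinal Filter
open Pool.Agent.Y576.CC (plim plim_spec plim_eq plim_congr plim_inj zmod2 Idx mk_Idx mk_Iio_Idx)

variable {sz : Idx → ℕ}

/-- the names which only use stages up to `α` -/
def LowEq (α : Idx) (v : V sz) : Prop := ∀ β, α < β → ∀ j, v (Sum.inr ⟨β, j⟩) = 0

/-- the names which use no stage -/
def Base (v : V sz) : Prop := ∀ β j, v (Sum.inr ⟨β, j⟩) = 0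

theorem top_stage (v : V sz) : Base v ∨ ∃ α, LowEq α v ∧ ∃ j, v (Sum.inr ⟨α, j⟩) ≠ 0 := by
  classical
  let T : Set Idx := {β | ∃ j, v (Sum.inr ⟨β, j⟩) ≠ 0}
  have hT : T.Finite := by
    have : T ⊆ (fun y : Σ α : Idx, Fin (sz α) => y.1) '' (Sum.inr ⁻¹' (v.support : Set (Gen sz))) := by
      rintro β ⟨j, hj⟩
      exact ⟨⟨β, j⟩, by simpa using hj, rfl⟩
    exact ((v.support.finite_toSet.preimage Sum.inr_injective.injOn).image _).subset this
  by_cases hne : T.Nonempty
  · obtain ⟨α, hα, hmax⟩ := hT.exists_maximal hne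
    right
    refine ⟨α, fun β hβ j => ?_, hα⟩
    by_contra hc
    exact absurd (hmax ⟨j, hc⟩ hβ.le) (not_le.2 hβ)
  · left
    intro β j
    by_contra hc
    exact hne ⟨β, j, hc⟩

theorem split_stage {α : Idx} {v : V sz} (hv : LowEq α v) (z : Pts sz) :
    ∃ g : V sz, Low α g ∧ ev z v = ev z g + comb (fun j => v (Sum.inr ⟨α, j⟩)) (z α) := by
  classical
  let g : V sz := v + ∑ j, v (Sum.inr ⟨α, j⟩) • Finsupp.single (Sum.inr ⟨α, j⟩) 1
  have hs : ∀ β i, (∑ j, v (Sum.inr ⟨α, j⟩) • (Finsupp.single (Sum.inr ⟨α, j⟩) 1 : V sz))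
      (Sum.inr ⟨β, i⟩) = ∑ j, v (Sum.inr ⟨α, j⟩) *
        (Finsupp.single (Sum.inr ⟨α, j⟩) 1 : V sz) (Sum.inr ⟨β, i⟩) := by
    intro β i
    rw [Finsupp.finsetSum_apply]
    rfl
  refine ⟨g, fun β hβ i => ?_, ?_⟩
  · show v (Sum.inr ⟨β, i⟩) + (∑ j, v (Sum.inr ⟨α, j⟩) •
      (Finsupp.single (Sum.inr ⟨α, j⟩) 1 : V sz)) (Sum.inr ⟨β, i⟩) = 0
    rw [hs]
    rcases hβ.lt_or_eq with hlt | rfl
    · rw [hv β hlt, zero_add]
      refine Finset.sum_eq_zero fun j _ => ?_
      rw [Finsupp.single_eq_of_ne, mul_zero]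
      intro hc
      have := congrArg (fun y => (Sum.elim (fun _ => α) (fun y : Σ α : Idx, Fin (sz α) => y.1) y)) hc
      simp only [Sum.elim_inr] at this
      exact hlt.ne' this
    · rw [Finset.sum_eq_single i]
      · rw [Finsupp.single_eq_same, mul_one]
        exact CharTwo.add_self_eq_zero _
      · intro j _ hj
        rw [Finsupp.single_eq_of_ne, mul_zero]
        intro hc
        have h1 := Sum.inr_injective hc
        simp only [Sigma.mk.injEq, heq_eq_eq, true_and] at h1
        exact hj h1.symm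
      · intro h
        exact absurd (Finset.mem_univ _) h
  · have h1 : ev z (∑ j, v (Sum.inr ⟨α, j⟩) • (Finsupp.single (Sum.inr ⟨α, j⟩) 1 : V sz)) =
        comb (fun j => v (Sum.inr ⟨α, j⟩)) (z α) := by
      rw [map_sum]
      refine Finset.sum_congr rfl fun j _ => ?_
      rw [map_smul, ev_inr]
    rw [map_add, h1, add_assoc, add_self, add_zero]

theorem comb_zero {m : ℕ} (w : Fin m → K) : comb (0 : Fin m → ZMod 2) w = 0 := by
  simp [comb]

theorem base_absurd {z : Pts sz} {v : V sz} (hv : Base v) {l : ℕ →₀ ZMod 2} (hl : l ≠ 0)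
    {q : Ultrafilter ℕ} (hq : (q : Filter ℕ) ≤ cofinite) (h : ev z v = EL q l) : False := by
  classical
  obtain ⟨i, hi⟩ := exists_one hl
  let T : Set ℕ := {n | v (Sum.inl (i, n)) ≠ 0}
  have hT : T.Finite := by
    have : T = (fun n : ℕ => (Sum.inl (i, n) : Gen sz)) ⁻¹' (v.support : Set (Gen sz)) := by
      ext n; simp [T]
    rw [this]
    refine v.support.finite_toSet.preimage (Function.Injective.injOn ?_)
    intro m n hmn
    simpa using hmn
  let u : ℕ → ZMod 2 := fun n => if n ∈ T then 0 else 1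
  have e1 : EL q l (test i u) = 1 := by
    rw [EL_test, hi, one_mul]
    apply plim_eq
    have : Tᶜ ∈ (q : Filter ℕ) := hq hT.compl_mem_cofinite
    filter_upwards [this] with n hn
    exact if_neg hn
  have e2 : ev z v (test i u) = 0 := by
    rw [ev, Finsupp.linearCombination_apply, Finsupp.sum, Finset.sum_apply]
    refine Finset.sum_eq_zero fun x hx => ?_
    have hx' := Finsupp.mem_support_iff.1 hx
    rcases x with ⟨i', n⟩ | ⟨β, j⟩
    · rw [Pi.smul_apply]
      show v (Sum.inl (i', n)) • test i u (i', n) = 0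
      by_cases hii : i' = i
      · subst hii
        have : n ∈ T := hx'
        simp [test, u, this]
      · simp [test, hii]
    · exact absurd (hv β j) hx'
  rw [h, e1] at e2
  exact one_ne_zero e2

theorem no_common {f : (α : Idx) → Fin (sz α) → ℕ → V sz} {z : Pts sz}
    (hz : ∀ α, Req f α z (z α)) (I : Set ℕ) (h0 : 0 ∈ I) (hI : ∀ α, ∀ i ≤ sz α, i ∈ I)
    (q : Ultrafilter ℕ) (hq : (q : Filter ℕ) ≤ cofinite) :
    ¬ ∀ i ∈ I, ∃ v, ev z v = E q i := by
  classical
  intro hE
  let Act : Idx → Prop := fun α => ∃ l : ℕ →₀ ZMod 2, l ≠ 0 ∧ ∃ v, LowEq α v ∧ ev z v = EL q l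
  have hs0 : ∀ i, (Finsupp.single i 1 : ℕ →₀ ZMod 2) ≠ 0 := fun i => by
    rw [Ne, Finsupp.single_eq_zero]
    exact one_ne_zero
  have hne : ∃ α, Act α := by
    obtain ⟨v, hv⟩ := hE 0 h0
    rcases top_stage v with hb | ⟨α, hα, _⟩
    · exact (base_absurd hb (hs0 0) hq (hv.trans (EL_single q 0).symm)).elim
    · exact ⟨α, _, hs0 0, v, hα, hv.trans (EL_single q 0).symm⟩
  obtain ⟨α, hα, hmin⟩ : ∃ α, Act α ∧ ∀ β, β < α → ¬ Act β := by
    have hw := (wellFounded_lt (α := Idx))
    exact ⟨hw.min {α | Act α} hne, hw.min_mem {α | Act α} hne,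
      fun β hβ hc => hw.not_lt_min {α | Act α} hc hβ⟩
  obtain ⟨l0, hl0, v0, hv0, hv0'⟩ := hα
  have hlow : ∀ l : ℕ →₀ ZMod 2, l ≠ 0 → ∀ v, Low α v → ev z v ≠ EL q l := by
    intro l hl v hv hc
    rcases top_stage v with hb | ⟨β, hβ, j, hj⟩
    · exact base_absurd hb hl hq hc
    · have hlt : β < α := by
        by_contra hcon
        exact hj (hv β (not_lt.1 hcon) j)
      exact hmin β hlt ⟨l, hl, v, hβ, hc⟩
  have hall : ∀ i, ∀ β, ∀ v, LowEq β v → ev z v = E q i → ∃ v', LowEq α v' ∧ ev z v' = E q i := by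
    intro i β
    induction β using WellFoundedLT.induction with
    | _ β ih =>
      intro v hv hvE
      by_cases hβ : β ≤ α
      · exact ⟨v, fun γ hγ => hv γ (hβ.trans_lt hγ), hvE⟩
      · have hlt := not_le.1 hβ
        obtain ⟨g, hg, hvg⟩ := split_stage hv z
        by_cases hε : (fun j => v (Sum.inr ⟨β, j⟩)) = 0
        · have hvl : Low β v := by
            intro γ hγ j
            rcases hγ.lt_or_eq with h | rfl
            · exact hv γ h j
            · exact congrFun hε j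
          rcases top_stage v with hb | ⟨γ, hγ, j, hj⟩
          · exact ⟨v, fun γ _ => hb γ, hvE⟩
          · have hlt' : γ < β := by
              by_contra hcon
              exact hj (hvl γ (not_lt.1 hcon) j)
            exact ih γ hlt' v hγ hvE
        · exfalso
          refine (hz β).2 g v0 hg (fun γ hγ => hv0 γ (hlt.trans_le hγ)) l0 (Finsupp.single i 1) _ hε
            ⟨hl0, q, hv0', ?_⟩
          rw [EL_single, ← hvE, hvg, ← add_assoc, add_self, zero_add]
  have hrep : ∀ i : Fin (sz α + 1), ∃ v, LowEq α v ∧ ev z v = E q i := by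
    intro i
    obtain ⟨v, hv⟩ := hE i (hI α i (Nat.lt_succ_iff.1 i.2))
    rcases top_stage v with hb | ⟨β, hβ, _⟩
    · exact ⟨v, fun γ _ => hb γ, hv⟩
    · exact hall i β v hβ hv
  choose v hv1 hv2 using hrep
  have hdep : ¬ LinearIndependent (ZMod 2)
      (fun (i : Fin (sz α + 1)) (j : Fin (sz α)) => v i (Sum.inr ⟨α, j⟩)) := by
    intro hli
    have := hli.fintype_card_le_finrank
    simp at this
  rw [Fintype.not_linearIndependent_iff] at hdep
  obtain ⟨c, hc, i0, hi0⟩ := hdep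
  let l : ℕ →₀ ZMod 2 := ∑ i : Fin (sz α + 1), Finsupp.single (i : ℕ) (c i)
  have hl : l ≠ 0 := by
    intro hcon
    apply hi0
    have h1 := DFunLike.congr_fun hcon (i0 : ℕ)
    rw [Finsupp.finsetSum_apply, Finset.sum_eq_single i0] at h1
    · simpa using h1
    · intro i _ hi
      rw [Finsupp.single_eq_of_ne]
      intro h
      exact hi (Fin.ext h.symm)
    · intro h
      exact absurd (Finset.mem_univ _) h
  have hEL : EL q l = ∑ i : Fin (sz α + 1), c i • E q i := by
    rw [EL, map_sum]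
    refine Finset.sum_congr rfl fun i _ => ?_
    rw [Finsupp.linearCombination_single]
  refine hlow l hl (∑ i, c i • v i) ?_ ?_
  · intro β hβ j
    rw [Finsupp.finsetSum_apply]
    rcases hβ.lt_or_eq with hlt | rfl
    · refine Finset.sum_eq_zero fun i _ => ?_
      rw [Finsupp.smul_apply, hv1 i β hlt, smul_zero]
    · have := congrFun hc j
      rw [Finset.sum_apply] at this
      exact this
  · rw [map_sum, hEL]
    refine Finset.sum_congr rfl fun i _ => ?_
    rw [map_smul, hv2]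

end Pool.Agent.K4H91.CP
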