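import Mathlib
import Pool.Agent.K4H91.CP3

/-!
# Subsequences of finite tuples of sequences
-/

namespace Pool.Agent.K4H91.CP

open Module Submodule Filter
open Pool.Agent.Y576.CC (zmod2)

variable {X : Type*} [AddCommGroup X] [Module (ZMod 2) X]

theorem two_eq (x : X) : x + x = 0 := by
  have h : ((1 : ZMod 2) + 1) • x = 0 := by
    rw [show (1 : ZMod 2) + 1 = 0 from rfl, zero_smul]
  rwa [add_smul, one_smul] at h

/-- every nontrivial combination is finite-to-one -/
def FT {m : ℕ} (h : Fin m → ℕ → X) : Prop :=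
  ∀ ε : Fin m → ZMod 2, ε ≠ 0 → ∀ x, {n | ∑ j, ε j • h j n = x}.Finite

theorem FT.comp {m : ℕ} {h : Fin m → ℕ → X} (hh : FT h) {ρ : ℕ → ℕ} (hρ : StrictMono ρ) :
    FT fun j n => h j (ρ n) := by
  intro ε hε x
  exact (hh ε hε x).preimage hρ.injective.injOn

theorem exists_FT (m : ℕ) : ∀ v : ℕ → Fin m → X, ∃ σ : ℕ → ℕ, StrictMono σ ∧ ∃ m' ≤ m,
    ∃ h : Fin m' → ℕ → X, FT h ∧ ∃ c : Fin m → X, ∃ a : Fin m → Fin m' → ZMod 2,
      ∀ n j, v (σ n) j = c j + ∑ i, a j i • h i n := by
  classical
  induction m with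
  | zero =>
    intro v
    refine ⟨id, strictMono_id, 0, le_rfl, fun i => i.elim0, fun ε hε => ?_, fun j => j.elim0,
      fun j => j.elim0, fun n j => j.elim0⟩
    exact absurd (Subsingleton.elim ε 0) hε
  | succ m ih =>
    intro v
    obtain ⟨σ, hσ, m', hm', h, hh, c, a, hv⟩ := ih fun n j => v n (Fin.castSucc j)
    let y : ℕ → X := fun n => v (σ n) (Fin.last m)
    by_cases hc : ∃ ε : Fin m' → ZMod 2, ∃ x, {n | y n + ∑ i, ε i • h i n = x}.Infinite
    · obtain ⟨ε, x, hinf⟩ := hc
      have := hinf.to_subtype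
      let ρ := Nat.orderEmbeddingOfSet {n | y n + ∑ i, ε i • h i n = x}
      have hρ : StrictMono ρ := ρ.strictMono
      have hρ' : ∀ n, y (ρ n) + ∑ i, ε i • h i (ρ n) = x := fun n => by
        have : ρ n ∈ {n | y n + ∑ i, ε i • h i n = x} := by
          rw [← Nat.orderEmbeddingOfSet_range {n | y n + ∑ i, ε i • h i n = x}]
          exact ⟨n, rfl⟩
        exact this
      refine ⟨σ ∘ ρ, hσ.comp hρ, m', by omega, fun i n => h i (ρ n), hh.comp hρ,
        Fin.snoc (α := fun _ => X) c x, Fin.snoc (α := fun _ => Fin m' → ZMod 2) a ε,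
        fun n j => ?_⟩
      refine Fin.lastCases ?_ (fun j => ?_) j
      · simp only [Fin.snoc_last, Function.comp_apply]
        rw [← hρ' n, add_assoc, two_eq, add_zero]
      · simp only [Fin.snoc_castSucc, Function.comp_apply]
        exact hv (ρ n) j
    · push Not at hc
      refine ⟨σ, hσ, m' + 1, by omega, Fin.snoc (α := fun _ => ℕ → X) h y, ?_,
        Fin.snoc (α := fun _ => X) c 0,
        Fin.snoc (α := fun _ => Fin (m' + 1) → ZMod 2)
          (fun j => Fin.snoc (α := fun _ => ZMod 2) (a j) 0)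
          (Fin.snoc (α := fun _ => ZMod 2) 0 1), fun n j => ?_⟩
      · intro ε hε x
        rcases zmod2 (ε (Fin.last m')) with h0 | h1
        · have hε' : (fun i => ε (Fin.castSucc i)) ≠ 0 := by
            intro hcon
            apply hε
            funext i
            refine Fin.lastCases ?_ (fun i => ?_) i
            · exact h0
            · exact congrFun hcon i
          refine (hh _ hε' x).subset fun n hn => ?_
          have hn' : ∑ j, ε j • (Fin.snoc (α := fun _ => ℕ → X) h y j) n = x := hn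
          rw [Fin.sum_univ_castSucc] at hn'
          simp only [Fin.snoc_castSucc, Fin.snoc_last, h0, zero_smul, add_zero] at hn'
          exact hn'
        · refine (hc (fun i => ε (Fin.castSucc i)) x).subset fun n hn => ?_
          have hn' : ∑ j, ε j • (Fin.snoc (α := fun _ => ℕ → X) h y j) n = x := hn
          rw [Fin.sum_univ_castSucc] at hn'
          simp only [Fin.snoc_castSucc, Fin.snoc_last, h1, one_smul] at hn'
          show y n + ∑ i, ε (Fin.castSucc i) • h i n = x
          rw [add_comm]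
          exact hn'
      · refine Fin.lastCases ?_ (fun j => ?_) j
        · rw [Fin.sum_univ_castSucc]
          simp only [Fin.snoc_castSucc, Fin.snoc_last, one_smul, Pi.zero_apply, zero_smul,
            Finset.sum_const_zero, zero_add]
          rfl
        · rw [Fin.sum_univ_castSucc]
          simp only [Fin.snoc_castSucc, Fin.snoc_last, zero_smul, add_zero]
          exact hv n j

/-- the span of the vectors with indices in a finite set -/
def spn {m : ℕ} (h : Fin m → ℕ → X) (F : Finset ℕ) : Submodule (ZMod 2) X :=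
  span (ZMod 2) {x | ∃ i ∈ F, ∃ j, h j i = x}

theorem spn_finite {m : ℕ} (h : Fin m → ℕ → X) (F : Finset ℕ) : Finite (spn h F) := by
  have hfin : {x | ∃ i ∈ F, ∃ j, h j i = x}.Finite := by
    have : {x | ∃ i ∈ F, ∃ j, h j i = x} = ⋃ i ∈ F, Set.range fun j => h j i := by
      ext x; simp
    rw [this]
    exact Set.Finite.biUnion F.finite_toSet fun i _ => Set.finite_range _
  have : Module.Finite (ZMod 2) (spn h F) := FiniteDimensional.span_of_finite _ hfin
  exact Module.finite_of_finite (ZMod 2)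

theorem exists_next {m : ℕ} {h : Fin m → ℕ → X} (hh : FT h) (F : Finset ℕ) :
    ∃ n, (∀ i ∈ F, i < n) ∧ ∀ ε : Fin m → ZMod 2, ε ≠ 0 → ∑ j, ε j • h j n ∉ spn h F := by
  classical
  have hf := spn_finite h F
  have hbad : (⋃ ε : {ε : Fin m → ZMod 2 // ε ≠ 0}, ⋃ w : spn h F,
      {n | ∑ j, ε.1 j • h j n = w}).Finite :=
    Set.finite_iUnion fun ε => Set.finite_iUnion fun w => hh ε.1 ε.2 w
  have hbad2 : (⋃ i ∈ F, Set.Iic i).Finite :=
    Set.Finite.biUnion F.finite_toSet fun i _ => Set.finite_Iic i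
  obtain ⟨n, hn⟩ := (hbad.union hbad2).exists_notMem
  rw [Set.mem_union, not_or] at hn
  refine ⟨n, fun i hi => ?_, fun ε hε hc => hn.1 ?_⟩
  · by_contra hcon
    exact hn.2 (Set.mem_biUnion hi (not_lt.1 hcon))
  · exact Set.mem_iUnion.2 ⟨⟨ε, hε⟩, Set.mem_iUnion.2 ⟨⟨_, hc⟩, rfl⟩⟩

theorem exists_indep_subseq {m : ℕ} {h : Fin m → ℕ → X} (hh : FT h) :
    ∃ ρ : ℕ → ℕ, StrictMono ρ ∧
      LinearIndependent (ZMod 2) fun x : Fin m × ℕ => h x.1 (ρ x.2) := by
  classical
  choose next h1 h2 using fun F => exists_next hh F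
  let F : ℕ → Finset ℕ := fun n => Nat.rec ∅ (fun _ G => insert (next G) G) n
  have hF : ∀ n, F (n + 1) = insert (next (F n)) (F n) := fun n => rfl
  let ρ : ℕ → ℕ := fun n => next (F n)
  have hρF : ∀ n, ∀ i < n, ρ i ∈ F n := by
    intro n
    induction n with
    | zero => intro i hi; omega
    | succ n ih =>
      intro i hi
      rw [hF]
      rcases Nat.lt_succ_iff_lt_or_eq.1 hi with h | rfl
      · exact Finset.mem_insert_of_mem (ih i h)
      · exact Finset.mem_insert_self _ _
  refine ⟨ρ, strictMono_nat_of_lt_succ fun n => h1 _ _ (hρF (n + 1) n (Nat.lt_succ_self n)), ?_⟩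
  have key : ∀ N, ∀ g : Fin m × ℕ → ZMod 2,
      ∑ n ∈ Finset.range N, ∑ j, g (j, n) • h j (ρ n) = 0 → ∀ j, ∀ n < N, g (j, n) = 0 := by
    intro N
    induction N with
    | zero => intro g _ j n hn; omega
    | succ N ih =>
      intro g hg
      rw [Finset.sum_range_succ] at hg
      have hmem : ∑ n ∈ Finset.range N, ∑ j, g (j, n) • h j (ρ n) ∈ spn h (F N) := by
        refine Submodule.sum_mem _ fun n hn => Submodule.sum_mem _ fun j _ =>
          Submodule.smul_mem _ _ (subset_span ⟨ρ n, hρF N n (Finset.mem_range.1 hn), j, rfl⟩)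
      have hz : (fun j => g (j, N)) = 0 := by
        by_contra hne
        refine h2 (F N) _ hne ?_
        have : ∑ j, g (j, N) • h j (ρ N) = -∑ n ∈ Finset.range N, ∑ j, g (j, n) • h j (ρ n) :=
          eq_neg_of_add_eq_zero_right hg
        show ∑ j, g (j, N) • h j (ρ N) ∈ spn h (F N)
        rw [this]
        exact Submodule.neg_mem _ hmem
      have hz' : ∑ j, g (j, N) • h j (ρ N) = 0 := by
        refine Finset.sum_eq_zero fun j _ => ?_
        rw [show g (j, N) = 0 from congrFun hz j, zero_smul]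
      rw [hz', add_zero] at hg
      intro j n hn
      rcases Nat.lt_succ_iff_lt_or_eq.1 hn with h | rfl
      · exact ih g hg j n h
      · exact congrFun hz j
  rw [linearIndependent_iff']
  intro s g hs x hx
  obtain ⟨N, hN⟩ : ∃ N, ∀ y ∈ s, y.2 < N := by
    refine ⟨s.sup (fun y => y.2) + 1, fun y hy => Nat.lt_succ_of_le ?_⟩
    exact Finset.le_sup (f := fun y : Fin m × ℕ => y.2) hy
  let g' : Fin m × ℕ → ZMod 2 := fun y => if y ∈ s then g y else 0
  have h3 : ∑ n ∈ Finset.range N, ∑ j, g' (j, n) • h j (ρ n) = 0 := by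
    rw [Finset.sum_comm, ← Finset.sum_product']
    rw [← hs]
    symm
    have h4 : s ⊆ Finset.univ ×ˢ Finset.range N := fun y hy => by
      rw [Finset.mem_product]
      exact ⟨Finset.mem_univ _, Finset.mem_range.2 (hN y hy)⟩
    rw [← Finset.sum_subset h4 (f := fun y : Fin m × ℕ => g' y • h y.1 (ρ y.2))]
    · refine Finset.sum_congr rfl fun y hy => ?_
      rw [show g' y = g y from if_pos hy]
    · intro y _ hy
      rw [show g' y = 0 from if_neg hy, zero_smul]
  have h5 := key N g' h3 x.1 x.2 (hN x hx)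
  have h6 : g' x = g x := if_pos hx
  rw [← h6]
  exact h5

end Pool.Agent.K4H91.CP
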