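import Mathlib
import Pool.Agent.Y576.CC.Group
import Pool.Agent.K4H91.CP4

/-!
# The groups
-/

namespace Pool.Agent.K4H91.CP

open Module Submodule Cardinal Filter Topology
open Pool.Agent.Y576.CC (plim plim_spec plim_eq plim_congr plim_inj zmod2 Idx mk_Idx mk_Iio_Idx
  countable_bounded)

/-! ### Bookkeeping -/

theorem mk_Idx_nat : #Idx = #(Idx × ℕ) := by
  rw [mk_prod, lift_id, lift_id, mk_Idx, mk_nat]
  exact (mul_eq_left aleph0_le_continuum aleph0_le_continuum aleph0_ne_zero).symm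

/-- a code for pairs -/
noncomputable def eIdx : Idx ≃ Idx × ℕ := (Cardinal.eq.1 mk_Idx_nat).some

/-- the sizes of the tuples handled at the stages -/
noncomputable def szOf (size : ℕ → ℕ) : Idx → ℕ := fun α => size (eIdx α).2

theorem mk_V (sz : Idx → ℕ) : #(V sz) ≤ 𝔠 := by
  have h2 : #(Σ α : Idx, Fin (sz α)) ≤ 𝔠 := by
    have h3 : #(Idx × ℕ) = 𝔠 := by rw [← mk_Idx_nat, mk_Idx]
    rw [← h3]
    refine mk_le_of_injective (f := fun y : Σ α : Idx, Fin (sz α) => (y.1, (y.2 : ℕ))) ?_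
    rintro ⟨β, j⟩ ⟨β', j'⟩ heq
    have e1 : β = β' := congrArg Prod.fst heq
    subst e1
    have e2 : j = j' := Fin.ext (congrArg Prod.snd heq)
    subst e2
    rfl
  have h1 : #(Gen sz) ≤ 𝔠 := by
    rw [mk_sum, lift_id, lift_id]
    exact add_le_of_le aleph0_le_continuum (mk_le_aleph0.trans aleph0_le_continuum) h2
  rw [mk_finsupp_of_infinite]
  exact max_le h1 ((lt_aleph0_of_finite _).le.trans aleph0_le_continuum)

theorem mk_tuples (sz : Idx → ℕ) (m : ℕ) : #(Fin m → ℕ → V sz) ≤ 𝔠 := by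
  rw [← (Equiv.curry (Fin m) ℕ (V sz)).cardinal_eq, ← power_def]
  calc #(V sz) ^ #(Fin m × ℕ) ≤ 𝔠 ^ #(Fin m × ℕ) := power_le_power_right (mk_V sz)
    _ ≤ 𝔠 ^ ℵ₀ := power_le_power_left continuum_ne_zero mk_le_aleph0
    _ = 𝔠 := continuum_power_aleph0

/-- the default tuple -/
noncomputable def dflt (sz : Idx → ℕ) (m : ℕ) : Fin m → ℕ → V sz :=
  fun j n => Finsupp.single (Sum.inl ((j : ℕ), n)) 1

theorem dflt_ind (sz : Idx → ℕ) (m : ℕ) :
    LinearIndependent (ZMod 2) fun x : Fin m × ℕ => dflt sz m x.1 x.2 := by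
  have h := Finsupp.linearIndependent_single_one (ZMod 2) (Gen sz)
  refine h.comp (fun x : Fin m × ℕ => Sum.inl ((x.1 : ℕ), x.2)) ?_
  rintro ⟨j, n⟩ ⟨j', n'⟩ heq
  have h1 := Sum.inl_injective heq
  have e1 : j = j' := Fin.ext (congrArg Prod.fst h1)
  have e2 : n = n' := congrArg Prod.snd h1
  rw [e1, e2]

theorem dflt_low (sz : Idx → ℕ) (m : ℕ) (α : Idx) (j : Fin m) (n : ℕ) :
    Low α (dflt sz m j n) := by
  intro β _ i
  simp [dflt]

/-- the independent tuples -/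
abbrev Sq (sz : Idx → ℕ) (m : ℕ) : Type :=
  {v : Fin m → ℕ → V sz // LinearIndependent (ZMod 2) fun x : Fin m × ℕ => v x.1 x.2}

theorem exists_sys (size : ℕ → ℕ) :
    ∃ f : (α : Idx) → Fin (szOf size α) → ℕ → V (szOf size), Sys f ∧
      ∀ m, ∀ v : Fin (size m) → ℕ → V (szOf size),
        (LinearIndependent (ZMod 2) fun x : Fin (size m) × ℕ => v x.1 x.2) →
        ∃ α, ∃ h : szOf size α = size m, ∀ j n, f α j n = v (Fin.cast h j) n := by
  classical
  have hne : ∀ m, Nonempty (Sq (szOf size) (size m)) := fun m => ⟨⟨dflt _ _, dflt_ind _ _⟩⟩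
  have h1 : ∀ m, #(Idx × Sq (szOf size) (size m)) = #Idx := by
    intro m
    rw [mk_prod, lift_id, lift_id, mk_Idx]
    exact mul_eq_left aleph0_le_continuum ((mk_subtype_le _).trans (mk_tuples _ _)) (mk_ne_zero _)
  have g0 : ∀ m, Nonempty (Idx ≃ Idx × Sq (szOf size) (size m)) := fun m =>
    Cardinal.eq.1 (h1 m).symm
  let g := fun m => (g0 m).some
  let T : (p : Idx × ℕ) → Idx → Fin (size p.2) → ℕ → V (szOf size) := fun p α =>
    if ∀ j n, Low α ((g p.2 p.1).2.1 j n) then (g p.2 p.1).2.1 else dflt _ _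
  have hT1 : ∀ p α, LinearIndependent (ZMod 2) fun x : Fin (size p.2) × ℕ => T p α x.1 x.2 := by
    intro p α
    by_cases h : ∀ j n, Low α ((g p.2 p.1).2.1 j n)
    · have : T p α = (g p.2 p.1).2.1 := if_pos h
      rw [this]; exact (g p.2 p.1).2.2
    · have : T p α = dflt _ _ := if_neg h
      rw [this]; exact dflt_ind _ _
  have hT2 : ∀ p α j n, Low α (T p α j n) := by
    intro p α j n
    by_cases h : ∀ j n, Low α ((g p.2 p.1).2.1 j n)
    · have : T p α = (g p.2 p.1).2.1 := if_pos h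
      rw [this]; exact h j n
    · have : T p α = dflt _ _ := if_neg h
      rw [this]; exact dflt_low _ _ α j n
  refine ⟨fun α => T (eIdx α) α, ⟨fun α => hT1 _ α, fun α j n => hT2 _ α j n⟩,
    fun m v hv => ?_⟩
  -- the supports are bounded
  have hS : (⋃ x : Fin (size m) × ℕ, {β | ∃ i, v x.1 x.2 (Sum.inr ⟨β, i⟩) ≠ 0}).Countable := by
    refine Set.countable_iUnion fun x => ?_
    have : {β | ∃ i, v x.1 x.2 (Sum.inr ⟨β, i⟩) ≠ 0} ⊆
        (fun y : Σ α : Idx, Fin (szOf size α) => y.1) ''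
          (Sum.inr ⁻¹' ((v x.1 x.2).support : Set (Gen (szOf size)))) := by
      rintro β ⟨i, hi⟩
      exact ⟨⟨β, i⟩, by simpa using hi, rfl⟩
    exact (((v x.1 x.2).support.finite_toSet.preimage
      Sum.inr_injective.injOn).image _).countable.mono this
  obtain ⟨γ, hγ⟩ := countable_bounded hS
  -- there is a late stage at which `v` is handled
  let st : Idx → Idx := fun ξ => eIdx.symm ((g m).symm (ξ, ⟨v, hv⟩), m)
  have hst : Function.Injective st := by
    intro ξ ξ' h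
    have h4 := eIdx.symm.injective h
    have h5 := (g m).symm.injective (congrArg Prod.fst h4)
    exact congrArg Prod.fst h5
  have h2 : ∃ ξ, γ ≤ st ξ := by
    by_contra hcon
    push Not at hcon
    have h3 : Function.Injective fun ξ : Idx => (⟨st ξ, hcon ξ⟩ : Set.Iio γ) := by
      intro ξ ξ' h
      exact hst (congrArg Subtype.val h)
    have h5 := mk_le_of_injective h3
    rw [mk_Idx] at h5
    exact absurd h5 (not_le.2 (mk_Iio_Idx γ))
  obtain ⟨ξ, hξ⟩ := h2
  have h3 : eIdx (st ξ) = ((g m).symm (ξ, ⟨v, hv⟩), m) := eIdx.apply_symm_apply _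
  have h4 : ∀ j n, Low (st ξ) (v j n) := by
    intro j n β hβ i
    by_contra hne
    have h5 := hγ β (Set.mem_iUnion.2 ⟨(j, n), ⟨i, hne⟩⟩)
    exact absurd (hξ.trans hβ) (not_le.2 h5)
  have h6 : T ((g m).symm (ξ, ⟨v, hv⟩), m) (st ξ) = v := by
    have h7 : (g m ((g m).symm (ξ, ⟨v, hv⟩))).2.1 = v := by
      rw [Equiv.apply_symm_apply]
    show (if ∀ j n, Low (st ξ) ((g m ((g m).symm (ξ, ⟨v, hv⟩))).2.1 j n) then
      (g m ((g m).symm (ξ, ⟨v, hv⟩))).2.1 else dflt _ _) = v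
    rw [h7, if_pos h4]
  have h8 : ∀ p : Idx × ℕ, p = ((g m).symm (ξ, ⟨v, hv⟩), m) →
      ∃ h : size p.2 = size m, ∀ j n, T p (st ξ) j n = v (Fin.cast h j) n := by
    rintro p rfl
    refine ⟨rfl, fun j n => ?_⟩
    rw [h6]
    rfl
  obtain ⟨h, h9⟩ := h8 _ h3
  exact ⟨st ξ, h, h9⟩

/-! ### The topology -/

theorem tendsto_K {p : Ultrafilter ℕ} {s : ℕ → K} {x : K} :
    Tendsto s p (𝓝 x) ↔ ∀ φ, ∀ᶠ n in p, s n φ = x φ := by
  rw [tendsto_pi_nhds]
  refine forall_congr' fun φ => ?_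
  rw [nhds_discrete, tendsto_pure]

theorem plimK_eq {p : Ultrafilter ℕ} {s : ℕ → K} {x : K} (h : Tendsto s p (𝓝 x)) :
    plimK p s = x := by
  funext φ
  exact plim_eq (tendsto_K.1 h φ)

section group

variable {sz : Idx → ℕ}

/-- the group -/
noncomputable def GG (z : Pts sz) : AddSubgroup K := (ev z).toAddMonoidHom.range

theorem mem_GG (z : Pts sz) (v : V sz) : ev z v ∈ GG z := ⟨v, rfl⟩

theorem exists_name {z : Pts sz} (g : GG z) : ∃ v, ev z v = g := g.2

theorem not_cc {f : (α : Idx) → Fin (sz α) → ℕ → V sz} {z : Pts sz}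
    (hz : ∀ α, Req f α z (z α)) {J : Type} (ι : J → ℕ) (h0 : ∃ j, ι j = 0)
    (hI : ∀ α, ∀ i ≤ sz α, ∃ j, ι j = i) : ¬ CountablyCompactSpace (J → GG z) := by
  intro hcc
  let x : ℕ → J → GG z := fun n j => ⟨ev z (Finsupp.single (Sum.inl (ι j, n)) 1), mem_GG z _⟩
  have h1 := isCountablyCompact_iff_seq_clusterPt.1 hcc.isCountablyCompact_univ
    x (Eventually.of_forall fun _ => trivial)
  obtain ⟨g, _, hg⟩ := h1
  obtain ⟨q, hq1, hq2⟩ := mapClusterPt_iff_ultrafilter.1 hg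
  have key : ∀ j, (g j : K) = E q (ι j) := by
    intro j
    have h2 : Tendsto (fun n => x n j) q (𝓝 (g j)) := (tendsto_pi_nhds.1 hq2) j
    have h3 : Tendsto (fun n => (x n j : K)) q (𝓝 (g j : K)) :=
      (continuous_subtype_val (p := (· ∈ GG z))).continuousAt.tendsto.comp h2
    rw [← plimK_eq h3]
    funext φ
    show plim q (fun n => ev z (Finsupp.single (Sum.inl (ι j, n)) 1) φ) = plim q fun n => φ (ι j, n)
    simp only [ev_inl]
  refine no_common hz (Set.range ι) h0 hI q ?_ ?_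
  · rw [Nat.cofinite_eq_atTop]
    exact hq1
  · rintro _ ⟨j, rfl⟩
    obtain ⟨v, hv⟩ := exists_name (g j)
    exact ⟨v, hv.trans (key j)⟩

theorem tendsto_stage {f : (α : Idx) → Fin (sz α) → ℕ → V sz} {z : Pts sz} {α ξ : Idx}
    (h : z α = W f z α ξ) (j : Fin (sz α)) :
    ∀ φ, ∀ᶠ n in up α ξ, ev z (f α j n) φ = z α j φ := by
  intro φ
  rw [h]
  exact plim_spec (up α ξ) fun n => ev z (f α j n) φ

theorem cc_pow {f : (α : Idx) → Fin (sz α) → ℕ → V sz} {z : Pts sz}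
    (hz : ∀ α, Req f α z (z α)) {M : ℕ}
    (hf' : ∀ m ≤ M, ∀ v : Fin m → ℕ → V sz,
        (LinearIndependent (ZMod 2) fun x : Fin m × ℕ => v x.1 x.2) →
        ∃ α, ∃ h : sz α = m, ∀ j n, f α j n = v (Fin.cast h j) n) :
    CountablyCompactSpace (Fin M → GG z) := by
  classical
  refine ⟨?_⟩
  rw [isCountablyCompact_iff_infinite_subset_has_accPt]
  intro S _ hS
  let s : ℕ → Fin M → GG z := fun n => (Set.Infinite.natEmbedding S hS n : Fin M → GG z)
  have hs : Function.Injective s :=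
    Subtype.val_injective.comp (Set.Infinite.natEmbedding S hS).injective
  have hsS : ∀ n, s n ∈ S := fun n => (Set.Infinite.natEmbedding S hS n).2
  choose v hv using fun n j => exists_name (s n j)
  obtain ⟨σ, hσ, m', hm', h, hh, c, a, hva⟩ := exists_FT M v
  obtain ⟨ρ, hρ, hind⟩ := exists_indep_subseq hh
  obtain ⟨α, hα, hfα⟩ := hf' m' hm' (fun j n => h j (ρ n)) hind
  obtain ⟨ξ, hξ⟩ := (hz α).1
  let w : Fin M → V sz := fun j =>
    c j + ∑ i, a j i • Finsupp.single (Sum.inr ⟨α, Fin.cast hα.symm i⟩) 1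
  have hw : ∀ j, ev z (w j) = ev z (c j) + ∑ i, a j i • z α (Fin.cast hα.symm i) := by
    intro j
    rw [map_add, map_sum]
    refine congrArg _ (Finset.sum_congr rfl fun i _ => ?_)
    rw [map_smul, ev_inr]
  have hsv : ∀ n j, (s (σ (ρ n)) j : K) = ev z (c j) + ∑ i, a j i • ev z (h i (ρ n)) := by
    intro n j
    rw [← hv, hva, map_add, map_sum]
    refine congrArg _ (Finset.sum_congr rfl fun i _ => ?_)
    rw [map_smul]
  let g : Fin M → GG z := fun j => ⟨ev z (w j), mem_GG z _⟩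
  have hg : ∀ j, (g j : K) = ev z (w j) := fun j => rfl
  refine ⟨g, trivial, ?_⟩
  have ht : Tendsto (fun n => s (σ (ρ n))) (up α ξ) (𝓝 g) := by
    rw [tendsto_pi_nhds]
    intro j
    rw [tendsto_subtype_rng, tendsto_K]
    intro φ
    have h1 : ∀ᶠ n in (up α ξ : Filter ℕ), ∀ i : Fin m',
        ev z (h i (ρ n)) φ = z α (Fin.cast hα.symm i) φ := by
      rw [eventually_all]
      intro i
      have h2 := tendsto_stage hξ (Fin.cast hα.symm i) φ
      filter_upwards [h2] with n hn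
      rw [hfα] at hn
      exact hn
    filter_upwards [h1] with n hn
    rw [hsv, hg, hw, Pi.add_apply, Pi.add_apply, Finset.sum_apply, Finset.sum_apply]
    refine congrArg _ (Finset.sum_congr rfl fun i _ => ?_)
    rw [Pi.smul_apply, Pi.smul_apply, hn i]
  rw [accPt_iff_nhds]
  intro O hO
  have h1 : {n | s (σ (ρ n)) ∈ O} ∈ up α ξ := ht hO
  have h2 : {n | s (σ (ρ n)) = g}ᶜ ∈ up α ξ := by
    have h3 : {n | s (σ (ρ n)) = g}.Subsingleton := by
      intro m hm n hn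
      exact hρ.injective (hσ.injective (hs (hm.trans hn.symm)))
    have h4 : ({n | s (σ (ρ n)) = g}ᶜ : Set ℕ) ∈ (atTop : Filter ℕ) := by
      rw [← Nat.cofinite_eq_atTop]
      exact h3.finite.compl_mem_cofinite
    exact pt_le_atTop _ h4
  obtain ⟨n, hn1, hn2⟩ := Filter.nonempty_of_mem (Filter.inter_mem h1 h2)
  exact ⟨s (σ (ρ n)), ⟨hn1, hsS _⟩, hn2⟩

/-- convergent sequences are eventually constant -/
theorem no_conv {f : (α : Idx) → Fin (sz α) → ℕ → V sz} (hf : Sys f) {z : Pts sz}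
    (hz : ∀ α, Req f α z (z α))
    (hf' : ∀ m ≤ 1, ∀ v : Fin m → ℕ → V sz,
        (LinearIndependent (ZMod 2) fun x : Fin m × ℕ => v x.1 x.2) →
        ∃ α, ∃ h : sz α = m, ∀ j n, f α j n = v (Fin.cast h j) n)
    (s : ℕ → GG z) (g : GG z) (hs : Tendsto s atTop (𝓝 g)) : ∀ᶠ n in atTop, s n = g := by
  classical
  by_contra hcon
  rw [Filter.not_eventually] at hcon
  obtain ⟨τ0, hτ0, hne⟩ := extraction_of_frequently_atTop hcon
  choose v hv using fun n => exists_name (s (τ0 n))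
  obtain ⟨σ, hσ, m', hm', h, hh, c, a, hva⟩ := exists_FT 1 (fun n (_ : Fin 1) => v n)
  obtain ⟨ρ, hρ, hind⟩ := exists_indep_subseq hh
  obtain ⟨α, hα, hfα⟩ := hf' m' hm' (fun j n => h j (ρ n)) hind
  subst hα
  have hfα' : ∀ j n, f α j n = h j (ρ n) := fun j n => hfα j n
  have hval : ∀ n, (s (τ0 (σ (ρ n))) : K) = ev z (c 0) + ∑ j, a 0 j • ev z (f α j n) := by
    intro n
    rw [← hv, hva (ρ n) 0, map_add, map_sum]
    refine congrArg _ (Finset.sum_congr rfl fun i _ => ?_)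
    rw [map_smul, hfα']
  have hcomb : ∀ ξ, comb (a 0) (W f z α ξ) = (g : K) + ev z (c 0) := by
    intro ξ
    funext φ
    have h1 : ∀ᶠ n in (up α ξ : Filter ℕ), ∀ j, ev z (f α j n) φ = W f z α ξ j φ := by
      rw [eventually_all]
      intro j
      exact plim_spec (up α ξ) fun n => ev z (f α j n) φ
    have h2 : Tendsto (fun n => (s (τ0 (σ (ρ n))) : K)) (up α ξ) (𝓝 (g : K)) := by
      have h3 : Tendsto (fun n => τ0 (σ (ρ n))) (up α ξ) atTop :=
        ((hτ0.comp (hσ.comp hρ)).tendsto_atTop).mono_left (pt_le_atTop _)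
      exact (continuous_subtype_val (p := (· ∈ GG z))).continuousAt.tendsto.comp (hs.comp h3)
    obtain ⟨n, hn1, hn2⟩ := (h1.and (tendsto_K.1 h2 φ)).exists
    rw [hval n] at hn2
    rw [Pi.add_apply, ← hn2, Pi.add_apply, comb, Finset.sum_apply, Finset.sum_apply]
    have h4 : ∑ j, (a 0 j • W f z α ξ j) φ = ∑ j, (a 0 j • ev z (f α j n)) φ := by
      refine Finset.sum_congr rfl fun j _ => ?_
      rw [Pi.smul_apply, Pi.smul_apply, hn1 j]
    rw [h4, add_comm (ev z (c 0) φ), add_assoc, CharTwo.add_self_eq_zero, add_zero]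
  by_cases ha : a 0 = 0
  · apply hne (σ (ρ 0))
    apply Subtype.ext
    obtain ⟨ξ⟩ : Nonempty Idx := inferInstance
    have h1 := hcomb ξ
    rw [ha, comb_zero] at h1
    have h2 : (g : K) = ev z (c 0) := by
      have h3 := congrArg (· + ev z (c 0)) h1
      simp only [zero_add, add_assoc, add_self, add_zero] at h3
      exact h3.symm
    rw [hval, ha, h2]
    simp
  · have : Nontrivial Idx := by
      rw [← one_lt_iff_nontrivial, mk_Idx]
      exact one_lt_aleph0.trans aleph0_lt_continuum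
    obtain ⟨ξ, ξ', hξ⟩ := exists_pair_ne Idx
    exact hξ (separate hf (fun β _ => (hz β).1) ha ((hcomb ξ).trans (hcomb ξ').symm))

end group

theorem exists_group (size : ℕ → ℕ) (hsize : ∀ m, ∀ k ≤ size m, ∃ m', size m' = k)
    (h1 : ∃ m, size m = 1) :
    ∃ G : AddSubgroup K, #G ≤ 𝔠 ∧ (∀ m, CountablyCompactSpace (Fin (size m) → G)) ∧
      (∀ M, (∀ m, size m < M) → ¬ CountablyCompactSpace (Fin M → G)) ∧
      ¬ CountablyCompactSpace (ℕ → G) ∧
      ∀ (s : ℕ → G) (g : G), Tendsto s atTop (𝓝 g) → ∀ᶠ n in atTop, s n = g := by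
  obtain ⟨f, hf, hf'⟩ := exists_sys size
  obtain ⟨z, hz⟩ := exists_construction hf
  have key : ∀ m0, ∀ m ≤ size m0, ∀ v : Fin m → ℕ → V (szOf size),
      (LinearIndependent (ZMod 2) fun x : Fin m × ℕ => v x.1 x.2) →
        ∃ α, ∃ h : szOf size α = m, ∀ j n, f α j n = v (Fin.cast h j) n := by
    intro m0 m hm v hv
    obtain ⟨m', rfl⟩ := hsize m0 m hm
    exact hf' m' v hv
  refine ⟨GG z, ?_, fun m => cc_pow hz (key m), fun M hM => ?_, ?_, ?_⟩
  · have h2 : Function.Surjective fun v : V (szOf size) => (⟨ev z v, mem_GG z v⟩ : GG z) := by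
      intro g
      obtain ⟨v, hv⟩ := exists_name g
      exact ⟨v, Subtype.ext hv⟩
    exact (mk_le_of_surjective h2).trans (mk_V _)
  · refine not_cc hz (fun j : Fin M => (j : ℕ)) ⟨⟨0, (Nat.zero_le _).trans_lt (hM 0)⟩, rfl⟩ ?_
    intro α i hi
    exact ⟨⟨i, hi.trans_lt (hM _)⟩, rfl⟩
  · exact not_cc hz (fun j : ℕ => j) ⟨0, rfl⟩ fun α i _ => ⟨i, rfl⟩
  · obtain ⟨m, hm⟩ := h1
    exact no_conv hf hz (hm ▸ key m)

end Pool.Agent.K4H91.CP
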