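import Mathlib

set_option autoImplicit false

namespace Pool.Agent.K4H91.Cde

open Finset

/-- partial fractions -/
theorem pf {ι : Type} [DecidableEq ι] (a b : ι → ℚ) (s : Finset ι) :
    (∀ i ∈ s, ∀ j ∈ s, b i = b j → i = j) → ∀ z : ℚ, (∀ i ∈ s, z ≠ b i) →
    ∏ j ∈ s, (z - a j) / (z - b j) =
      1 + ∑ p ∈ s, (b p - a p) * (∏ j ∈ s.erase p, (b p - a j) / (b p - b j)) / (z - b p) := by
  classical
  induction s using Finset.induction_on with
  | empty => intro _ z _; simp
  | insert q s hq ih =>
    intro hinj z hz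
    have hinj' : ∀ i ∈ s, ∀ j ∈ s, b i = b j → i = j := fun i hi j hj =>
      hinj i (mem_insert_of_mem hi) j (mem_insert_of_mem hj)
    have hbq : ∀ i ∈ s, b q ≠ b i := fun i hi h =>
      hq (by rw [hinj q (mem_insert_self _ _) i (mem_insert_of_mem hi) h]; exact hi)
    have hzq : z - b q ≠ 0 := sub_ne_zero.2 (hz q (mem_insert_self _ _))
    have hz' : ∀ i ∈ s, z ≠ b i := fun i hi => hz i (mem_insert_of_mem hi)
    have e1 := ih hinj' z hz'
    have e2 := ih hinj' (b q) hbq
    rw [prod_insert hq, sum_insert hq, erase_insert hq, e1, e2]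
    have e3 : ∀ p ∈ s, (b p - a p) * (∏ j ∈ (insert q s).erase p, (b p - a j) / (b p - b j)) /
        (z - b p) = (b p - a p) * (∏ j ∈ s.erase p, (b p - a j) / (b p - b j)) / (z - b p) +
        (b p - a p) * (∏ j ∈ s.erase p, (b p - a j) / (b p - b j)) *
          ((b q - a q) / (z - b q) * (1 / (z - b p) - 1 / (b q - b p))) := by
      intro p hp
      have hpq : q ≠ p := fun h => hq (h ▸ hp)
      have h1 : (insert q s).erase p = insert q (s.erase p) := by
        rw [erase_insert_of_ne hpq]
      have h2 : q ∉ s.erase p := fun h => hq (mem_of_mem_erase h)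
      rw [h1, prod_insert h2]
      have h3 : b p - b q ≠ 0 := sub_ne_zero.2 (hbq p hp).symm
      have h3' : b q - b p ≠ 0 := sub_ne_zero.2 (hbq p hp)
      have h4 : z - b p ≠ 0 := sub_ne_zero.2 (hz' p hp)
      generalize ∏ j ∈ s.erase p, (b p - a j) / (b p - b j) = A
      field_simp
      ring
    rw [sum_congr rfl e3, sum_add_distrib]
    have e4 : ∑ p ∈ s, (b p - a p) * (∏ j ∈ s.erase p, (b p - a j) / (b p - b j)) *
          ((b q - a q) / (z - b q) * (1 / (z - b p) - 1 / (b q - b p))) =
        (b q - a q) / (z - b q) *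
          (∑ p ∈ s, (b p - a p) * (∏ j ∈ s.erase p, (b p - a j) / (b p - b j)) / (z - b p)) -
        (b q - a q) / (z - b q) *
          (∑ p ∈ s, (b p - a p) * (∏ j ∈ s.erase p, (b p - a j) / (b p - b j)) / (b q - b p)) := by
      rw [mul_sum, mul_sum, ← sum_sub_distrib]
      refine sum_congr rfl fun p _ => ?_
      ring
    rw [e4]
    generalize ∑ p ∈ s, (b p - a p) * (∏ j ∈ s.erase p, (b p - a j) / (b p - b j)) / (z - b p) = X
    generalize ∑ p ∈ s, (b p - a p) * (∏ j ∈ s.erase p, (b p - a j) / (b p - b j)) / (b q - b p) = Y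
    field_simp
    ring

/-- the sum of the residues -/
theorem lag {ι : Type} [DecidableEq ι] (a b : ι → ℚ) (s : Finset ι) :
    (∀ i ∈ s, ∀ j ∈ s, b i = b j → i = j) →
    ∑ p ∈ s, (b p - a p) * (∏ j ∈ s.erase p, (b p - a j) / (b p - b j)) = ∑ p ∈ s, (b p - a p) := by
  classical
  induction s using Finset.induction_on with
  | empty => intro _; simp
  | insert q s hq ih =>
    intro hinj
    have hinj' : ∀ i ∈ s, ∀ j ∈ s, b i = b j → i = j := fun i hi j hj =>
      hinj i (mem_insert_of_mem hi) j (mem_insert_of_mem hj)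
    have hbq : ∀ i ∈ s, b q ≠ b i := fun i hi h =>
      hq (by rw [hinj q (mem_insert_self _ _) i (mem_insert_of_mem hi) h]; exact hi)
    have e1 := ih hinj'
    have e2 := pf a b s hinj' (b q) hbq
    rw [sum_insert hq, sum_insert hq, erase_insert hq, e2]
    have e3 : ∀ p ∈ s, (b p - a p) * (∏ j ∈ (insert q s).erase p, (b p - a j) / (b p - b j)) =
        (b p - a p) * (∏ j ∈ s.erase p, (b p - a j) / (b p - b j)) -
        (b q - a q) * ((b p - a p) * (∏ j ∈ s.erase p, (b p - a j) / (b p - b j)) / (b q - b p)) := by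
      intro p hp
      have hpq : q ≠ p := fun h => hq (h ▸ hp)
      have h1 : (insert q s).erase p = insert q (s.erase p) := by
        rw [erase_insert_of_ne hpq]
      have h2 : q ∉ s.erase p := fun h => hq (mem_of_mem_erase h)
      rw [h1, prod_insert h2]
      have h3 : b p - b q ≠ 0 := sub_ne_zero.2 (hbq p hp).symm
      have h3' : b q - b p ≠ 0 := sub_ne_zero.2 (hbq p hp)
      generalize ∏ j ∈ s.erase p, (b p - a j) / (b p - b j) = A
      field_simp
      ring
    rw [sum_congr rfl e3, sum_sub_distrib, e1, ← mul_sum]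
    ring

end Pool.Agent.K4H91.Cde
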