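import Mathlib
import Pool.Agent.K4H91.Cde1

set_option autoImplicit false

namespace Pool.Agent.K4H91.Cde

open Finset

/-- strict partitions, as sequences of their parts -/
def Str (μ : ℕ → ℕ) : Prop := ∀ i, μ (i + 1) = 0 ∨ μ (i + 1) < μ i

theorem Str.lt {μ : ℕ → ℕ} (h : Str μ) : ∀ {i j : ℕ}, i < j → μ j = 0 ∨ μ j < μ i := by
  intro i j hij
  induction j with
  | zero => omega
  | succ j ih =>
    rcases Nat.lt_succ_iff_lt_or_eq.1 hij with h1 | h1
    · rcases h j with h2 | h2
      · exact Or.inl h2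
      · rcases ih h1 with h3 | h3
        · rw [h3] at h2; omega
        · exact Or.inr (h2.trans h3)
    · subst h1
      exact h i

/-- remove a box from row `p` -/
def dn (μ : ℕ → ℕ) (p : ℕ) : ℕ → ℕ := Function.update μ p (μ p - 1)

/-- add a box to row `i` -/
def up (μ : ℕ → ℕ) (i : ℕ) : ℕ → ℕ := Function.update μ i (μ i + 1)

theorem dn_same (μ : ℕ → ℕ) (p : ℕ) : dn μ p p = μ p - 1 := by simp [dn]
theorem dn_ne (μ : ℕ → ℕ) {p i : ℕ} (h : i ≠ p) : dn μ p i = μ i := by simp [dn, h]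
theorem up_same (μ : ℕ → ℕ) (p : ℕ) : up μ p p = μ p + 1 := by simp [up]
theorem up_ne (μ : ℕ → ℕ) {p i : ℕ} (h : i ≠ p) : up μ p i = μ i := by simp [up, h]

/-- the factor of a pair of parts -/
def ff (a b : ℕ) : ℚ := if b = 0 then 1 else ((a : ℚ) - b) / (a + b)

/-- the product formula for the number of shifted standard tableaux -/
noncomputable def H (l : ℕ) (μ : ℕ → ℕ) : ℚ :=
  ((∑ i ∈ range l, μ i).factorial : ℚ) * ((∏ j ∈ range l, (1 / ((μ j).factorial : ℚ))) *
    ∏ j ∈ range l, ∏ i ∈ range j, ff (μ i) (μ j))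

/-- the ratio -/
def rat (x y : ℕ) : ℚ :=
  ((x : ℚ) * (x - 1) - y * (y + 1)) / ((x : ℚ) * (x - 1) - y * (y - 1))

/-- the ratio, or one -/
def rat' (x y : ℕ) : ℚ := if y = 0 then 1 else rat x y

theorem ff_left {a b : ℕ} (hb : 0 < b) (hab : b < a) :
    ff a (b - 1) = ff a b * rat' b a := by
  have ha : a ≠ 0 := by omega
  have hb0 : b ≠ 0 := by omega
  unfold ff rat' rat
  rw [if_neg ha, if_neg hb0]
  obtain ⟨c, rfl⟩ : ∃ c, b = c + 1 := ⟨b - 1, by omega⟩
  obtain ⟨d, rfl⟩ : ∃ d, a = c + 1 + d + 1 := ⟨a - c - 2, by omega⟩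
  rw [Nat.add_sub_cancel]
  push_cast
  have h1 : (c : ℚ) + 1 + d + 1 + (c + 1) ≠ 0 := by positivity
  have h2 : ((c : ℚ) + 1) * (c + 1 - 1) - (c + 1 + d + 1) * (c + 1 + d + 1 - 1) ≠ 0 := by
    have : ((c : ℚ) + 1) * (c + 1 - 1) - (c + 1 + d + 1) * (c + 1 + d + 1 - 1) < 0 := by
      have hc : (0 : ℚ) ≤ c := by positivity
      have hd : (0 : ℚ) ≤ d := by positivity
      nlinarith [mul_nonneg hc hd]
    exact this.ne
  split_ifs with h
  · subst h
    push_cast
    push_cast at h2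
    field_simp
    ring
  · have hc : (c : ℚ) ≠ 0 := by exact_mod_cast h
    have h3 : (c : ℚ) + 1 + d + 1 + c ≠ 0 := by positivity
    field_simp
    ring

theorem ff_right {a b : ℕ} (hab : b < a) :
    ff (a - 1) b = ff a b * rat' a b := by
  unfold ff rat' rat
  split_ifs with h
  · simp
  · obtain ⟨c, rfl⟩ : ∃ c, b = c + 1 := ⟨b - 1, by omega⟩
    obtain ⟨d, rfl⟩ : ∃ d, a = c + 1 + d + 1 := ⟨a - c - 2, by omega⟩
    rw [Nat.add_sub_cancel]
    push_cast
    have h1 : (c : ℚ) + 1 + d + 1 + (c + 1) ≠ 0 := by positivity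
    have h2 : ((c : ℚ) + 1 + d + 1) * (c + 1 + d + 1 - 1) - (c + 1) * (c + 1 - 1) ≠ 0 := by
      have : 0 < ((c : ℚ) + 1 + d + 1) * (c + 1 + d + 1 - 1) - (c + 1) * (c + 1 - 1) := by
        have hc : (0 : ℚ) ≤ c := by positivity
        have hd : (0 : ℚ) ≤ d := by positivity
        nlinarith [mul_nonneg hc hd]
      exact this.ne'
    have h3 : (c : ℚ) + 1 + d + (c + 1) ≠ 0 := by positivity
    field_simp
    ring

theorem pairs_dn {l p : ℕ} {μ : ℕ → ℕ} (hS : Str μ) (hp : p < l) (h0 : 0 < μ p) :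
    ∏ j ∈ range l, ∏ i ∈ range j, ff (dn μ p i) (dn μ p j) =
      (∏ j ∈ range l, ∏ i ∈ range j, ff (μ i) (μ j)) *
        ∏ j ∈ (range l).erase p, rat' (μ p) (μ j) := by
  have key : ∀ j ∈ range l, ∏ i ∈ range j, ff (dn μ p i) (dn μ p j) =
      (∏ i ∈ range j, ff (μ i) (μ j)) *
        (if j = p then ∏ i ∈ range p, rat' (μ p) (μ i) else
          if p < j then rat' (μ p) (μ j) else 1) := by
    intro j hj
    by_cases hjp : j = p
    · subst hjp
      rw [if_pos rfl, ← prod_mul_distrib]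
      refine prod_congr rfl fun i hi => ?_
      have hij : i < j := mem_range.1 hi
      rw [dn_same, dn_ne _ hij.ne]
      refine ff_left h0 ?_
      rcases hS.lt hij with h | h
      · omega
      · exact h
    · rw [if_neg hjp]
      by_cases hpj : p < j
      · rw [if_pos hpj, dn_ne _ hjp]
        have hm : p ∈ range j := mem_range.2 hpj
        rw [← mul_prod_erase _ _ hm, ← mul_prod_erase (range j) (fun i => ff (μ i) (μ j)) hm, dn_same]
        have h1 : ff (μ p - 1) (μ j) = ff (μ p) (μ j) * rat' (μ p) (μ j) := by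
          refine ff_right ?_
          rcases hS.lt hpj with h | h
          · omega
          · exact h
        have h2 : ∏ i ∈ (range j).erase p, ff (dn μ p i) (μ j) =
            ∏ i ∈ (range j).erase p, ff (μ i) (μ j) := by
          refine prod_congr rfl fun i hi => ?_
          rw [dn_ne _ (ne_of_mem_erase hi)]
        rw [h1, h2]
        ring
      · rw [if_neg hpj, mul_one]
        refine prod_congr rfl fun i hi => ?_
        have hij : i < j := mem_range.1 hi
        rw [dn_ne _ hjp, dn_ne _ (by omega)]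
  rw [prod_congr rfl key, prod_mul_distrib]
  congr 1
  have hm : p ∈ range l := mem_range.2 hp
  rw [← mul_prod_erase _ _ hm, if_pos rfl]
  have h1 : ∏ i ∈ range p, rat' (μ p) (μ i) =
      ∏ j ∈ (range l).erase p, if j < p then rat' (μ p) (μ j) else 1 := by
    rw [← prod_filter]
    refine prod_congr ?_ fun _ _ => rfl
    ext i
    simp only [mem_range, mem_filter, mem_erase]
    constructor
    · intro h
      exact ⟨⟨by omega, by omega⟩, h⟩
    · rintro ⟨_, h⟩
      exact h
  rw [h1, ← prod_mul_distrib]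
  refine prod_congr rfl fun j hj => ?_
  have hjp : j ≠ p := ne_of_mem_erase hj
  rw [if_neg hjp]
  rcases lt_or_gt_of_ne hjp with h | h
  · rw [if_pos h, if_neg (by omega), mul_one]
  · rw [if_neg (by omega), if_pos h, one_mul]

theorem sum_dn {l p : ℕ} {μ : ℕ → ℕ} (hp : p < l) (h0 : 0 < μ p) :
    ∑ i ∈ range l, μ i = (∑ i ∈ range l, dn μ p i) + 1 := by
  have hm : p ∈ range l := mem_range.2 hp
  rw [← add_sum_erase _ _ hm, ← add_sum_erase (range l) (dn μ p) hm, dn_same]
  have : ∑ i ∈ (range l).erase p, dn μ p i = ∑ i ∈ (range l).erase p, μ i := by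
    refine sum_congr rfl fun i hi => ?_
    rw [dn_ne _ (ne_of_mem_erase hi)]
  rw [this]
  omega

theorem sum_up {l p : ℕ} {μ : ℕ → ℕ} (hp : p < l) :
    ∑ i ∈ range l, up μ p i = (∑ i ∈ range l, μ i) + 1 := by
  have hm : p ∈ range l := mem_range.2 hp
  rw [← add_sum_erase _ _ hm, ← add_sum_erase (range l) μ hm, up_same]
  have : ∑ i ∈ (range l).erase p, up μ p i = ∑ i ∈ (range l).erase p, μ i := by
    refine sum_congr rfl fun i hi => ?_
    rw [up_ne _ (ne_of_mem_erase hi)]
  rw [this]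
  omega

theorem H_dn {l p : ℕ} {μ : ℕ → ℕ} (hS : Str μ) (hp : p < l) (h0 : 0 < μ p) :
    H l (dn μ p) = H l μ / (∑ i ∈ range l, μ i : ℕ) *
      (μ p * ∏ j ∈ (range l).erase p, rat' (μ p) (μ j)) := by
  unfold H
  rw [pairs_dn hS hp h0, sum_dn hp h0]
  have hm : p ∈ range l := mem_range.2 hp
  have h1 : ∏ j ∈ range l, (1 / ((dn μ p j).factorial : ℚ)) =
      μ p * ∏ j ∈ range l, (1 / ((μ j).factorial : ℚ)) := by
    rw [← mul_prod_erase _ _ hm, ← mul_prod_erase (range l) (fun j => 1 / ((μ j).factorial : ℚ)) hm,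
      dn_same]
    have h2 : ∏ j ∈ (range l).erase p, (1 / ((dn μ p j).factorial : ℚ)) =
        ∏ j ∈ (range l).erase p, (1 / ((μ j).factorial : ℚ)) := by
      refine prod_congr rfl fun i hi => ?_
      rw [dn_ne _ (ne_of_mem_erase hi)]
    rw [h2]
    obtain ⟨c, hc⟩ : ∃ c, μ p = c + 1 := ⟨μ p - 1, by omega⟩
    rw [hc, Nat.add_sub_cancel, Nat.factorial_succ]
    push_cast
    have h3 : ((c.factorial : ℕ) : ℚ) ≠ 0 := by exact_mod_cast Nat.factorial_ne_zero c
    field_simp
  rw [h1, Nat.factorial_succ]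
  generalize ∑ i ∈ range l, dn μ p i = N
  push_cast
  have h4 : (N : ℚ) + 1 ≠ 0 := by positivity
  field_simp

theorem H_zero_of_not {l p : ℕ} {μ : ℕ → ℕ} (hS : Str μ) (hl : ∀ i, l ≤ i → μ i = 0)
    (hp : p < l) (h0 : 0 < μ p) (hn : ¬ Str (dn μ p)) : H l (dn μ p) = 0 := by
  have h1 : μ (p + 1) ≠ 0 ∧ μ (p + 1) + 1 = μ p := by
    by_contra hcon
    apply hn
    intro i
    by_cases hi : i = p
    · subst hi
      rw [dn_same, dn_ne _ (by omega)]
      rcases hS i with h | h
      · exact Or.inl h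
      · by_cases h2 : μ (i + 1) = 0
        · exact Or.inl h2
        · right
          by_contra h3
          exact hcon ⟨h2, by omega⟩
    · rw [dn_ne _ hi]
      by_cases hi2 : i + 1 = p
      · rw [hi2, dn_same]
        rcases hS i with h | h
        · rw [hi2] at h; omega
        · rw [hi2] at h; omega
      · rw [dn_ne _ hi2]
        exact hS i
  have hp1 : p + 1 < l := by
    by_contra h
    exact h1.1 (hl _ (by omega))
  unfold H
  have h2 : ∏ j ∈ range l, ∏ i ∈ range j, ff (dn μ p i) (dn μ p j) = 0 := by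
    refine prod_eq_zero (mem_range.2 hp1) (prod_eq_zero (mem_range.2 (Nat.lt_succ_self p)) ?_)
    rw [dn_same, dn_ne _ (by omega)]
    unfold ff
    rw [if_neg h1.1, ← h1.2, Nat.add_sub_cancel, sub_self, zero_div]
  rw [h2]
  simp

open Classical in
/-- the recursion of the product formula -/
theorem H_rec {l : ℕ} {μ : ℕ → ℕ} (hS : Str μ) (hl : ∀ i, l ≤ i → μ i = 0)
    (hN : 0 < ∑ i ∈ range l, μ i) :
    ∑ p ∈ range l, (if 0 < μ p ∧ Str (dn μ p) then H l (dn μ p) else 0) = H l μ := by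
  have h1 : ∀ p ∈ range l, (if 0 < μ p ∧ Str (dn μ p) then H l (dn μ p) else 0) =
      H l μ / (∑ i ∈ range l, μ i : ℕ) *
        (if 0 < μ p then μ p * ∏ j ∈ (range l).erase p, rat' (μ p) (μ j) else 0) := by
    intro p hp
    have hp' := mem_range.1 hp
    by_cases h0 : 0 < μ p
    · rw [if_pos h0, ← H_dn hS hp' h0]
      by_cases h2 : Str (dn μ p)
      · rw [if_pos ⟨h0, h2⟩]
      · rw [if_neg (fun h => h2 h.2), H_zero_of_not hS hl hp' h0 h2]
    · rw [if_neg h0, if_neg (fun h => h0 h.1), mul_zero]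
  rw [sum_congr rfl h1, ← mul_sum, ← sum_filter]
  have h2 : ∀ p ∈ (range l).filter (fun p => 0 < μ p),
      (μ p : ℚ) * ∏ j ∈ (range l).erase p, rat' (μ p) (μ j) =
      (-1 / 2) * (((μ p : ℚ) * (μ p - 1) - μ p * (μ p + 1)) *
        ∏ j ∈ ((range l).filter (fun p => 0 < μ p)).erase p,
          ((μ p : ℚ) * (μ p - 1) - μ j * (μ j + 1)) / ((μ p : ℚ) * (μ p - 1) - μ j * (μ j - 1))) := by
    intro p hp
    have h3 : ∏ j ∈ (range l).erase p, rat' (μ p) (μ j) =
        ∏ j ∈ ((range l).filter (fun p => 0 < μ p)).erase p, rat (μ p) (μ j) := by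
      rw [← filter_erase, prod_filter]
      refine prod_congr rfl fun j _ => ?_
      unfold rat'
      by_cases h : μ j = 0
      · rw [if_pos h, if_neg (by omega)]
      · rw [if_neg h, if_pos (by omega)]
    rw [h3]
    unfold rat
    ring
  rw [sum_congr rfl h2, ← mul_sum]
  have h3 := lag (fun i => (μ i : ℚ) * (μ i + 1)) (fun i => (μ i : ℚ) * (μ i - 1))
    ((range l).filter (fun p => 0 < μ p)) (by
      intro i hi j hj hij
      have hi' := (mem_filter.1 hi).2
      have hj' := (mem_filter.1 hj).2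
      have key : ∀ a b : ℕ, 0 < a → 0 < b → (a : ℚ) * (a - 1) = b * (b - 1) → a = b := by
        intro a b ha hb h
        have h5 : ((a : ℚ) - b) * (a + b - 1) = 0 := by ring_nf; ring_nf at h; linarith
        rcases mul_eq_zero.1 h5 with h6 | h6
        · exact_mod_cast sub_eq_zero.1 h6
        · have : (1 : ℚ) ≤ a := by exact_mod_cast ha
          have : (1 : ℚ) ≤ b := by exact_mod_cast hb
          linarith
      have h4 := key _ _ hi' hj' hij
      rcases lt_trichotomy i j with h | h | h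
      · rcases hS.lt h with h5 | h5 <;> omega
      · exact h
      · rcases hS.lt h with h5 | h5 <;> omega)
  rw [h3]
  have h4 : ∑ p ∈ (range l).filter (fun p => 0 < μ p), ((μ p : ℚ) * (μ p - 1) - μ p * (μ p + 1)) =
      -2 * (∑ i ∈ range l, μ i : ℕ) := by
    push_cast
    rw [mul_sum, sum_filter]
    refine sum_congr rfl fun i _ => ?_
    split_ifs with h
    · ring
    · have : μ i = 0 := by omega
      rw [this]
      simp
  rw [h4]
  have h5 : ((∑ i ∈ range l, μ i : ℕ) : ℚ) ≠ 0 := by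
    exact_mod_cast hN.ne'
  field_simp

theorem H_zero (l : ℕ) : H l (fun _ => 0) = 1 := by
  unfold H ff
  simp

end Pool.Agent.K4H91.Cde
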