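import Mathlib
import Pool.Agent.K4H91.Cde2

set_option autoImplicit false

namespace Pool.Agent.K4H91.Cde

open Finset

theorem str_dn_iff {μ : ℕ → ℕ} (hS : Str μ) {p : ℕ} (h0 : 0 < μ p) :
    Str (dn μ p) ↔ (μ (p + 1) = 0 ∨ μ (p + 1) + 1 < μ p) := by
  constructor
  · intro h
    have h1 := h p
    rw [dn_same, dn_ne _ (by omega : p + 1 ≠ p)] at h1
    rcases h1 with h1 | h1
    · exact Or.inl h1
    · right; omega
  · intro h i
    by_cases hi : i = p
    · subst hi
      rw [dn_same, dn_ne _ (by omega)]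
      rcases h with h | h
      · exact Or.inl h
      · right; omega
    · rw [dn_ne _ hi]
      by_cases hi2 : i + 1 = p
      · rw [hi2, dn_same]
        rcases hS i with h2 | h2
        · rw [hi2] at h2; omega
        · rw [hi2] at h2; omega
      · rw [dn_ne _ hi2]
        exact hS i

theorem str_up_iff {μ : ℕ → ℕ} (hS : Str μ) {i : ℕ} :
    Str (up μ i) ↔ (i = 0 ∨ μ i + 1 < μ (i - 1)) := by
  constructor
  · intro h
    rcases Nat.eq_zero_or_pos i with h0 | h0
    · exact Or.inl h0
    · right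
      have h1 := h (i - 1)
      rw [show i - 1 + 1 = i by omega, up_same, up_ne _ (by omega : i - 1 ≠ i)] at h1
      omega
  · intro h j
    by_cases hj : j = i
    · subst hj
      rw [up_same, up_ne _ (by omega)]
      rcases hS j with h2 | h2 <;> omega
    · rw [up_ne _ hj]
      by_cases hj2 : j + 1 = i
      · rw [hj2, up_same]
        rcases h with h | h
        · omega
        · right
          rw [show i - 1 = j by omega] at h
          exact h
      · rw [up_ne _ hj2]
        exact hS j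

theorem up_dn {μ : ℕ → ℕ} {i p : ℕ} (h : i ≠ p) : up (dn μ p) i = dn (up μ i) p := by
  funext j
  by_cases h1 : j = i
  · subst h1
    rw [up_same, dn_ne _ h, dn_ne _ h, up_same]
  · rw [up_ne _ h1]
    by_cases h2 : j = p
    · subst h2
      rw [dn_same, dn_same, up_ne _ h1]
    · rw [dn_ne _ h2, dn_ne _ h2, up_ne _ h1]

theorem up_dn_same {μ : ℕ → ℕ} {p : ℕ} (h : 0 < μ p) : up (dn μ p) p = μ := by
  funext j
  by_cases h1 : j = p
  · subst h1
    rw [up_same, dn_same]
    omega
  · rw [up_ne _ h1, dn_ne _ h1]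

theorem dn_up_same {μ : ℕ → ℕ} {p : ℕ} : dn (up μ p) p = μ := by
  funext j
  by_cases h1 : j = p
  · subst h1
    rw [dn_same, up_same]
    omega
  · rw [dn_ne _ h1, up_ne _ h1]

/-- adding and removing boxes in different rows commute -/
theorem commute {μ : ℕ → ℕ} (hS : Str μ) {i p : ℕ} (h : i ≠ p) :
    (Str (up μ i) ∧ 0 < up μ i p ∧ Str (dn (up μ i) p)) ↔
      ((0 < μ p ∧ Str (dn μ p)) ∧ Str (up (dn μ p) i)) := by
  rw [up_dn h, up_ne _ h.symm]
  constructor
  · rintro ⟨h1, h2, h3⟩
    refine ⟨⟨h2, ?_⟩, h3⟩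
    rw [str_dn_iff hS h2]
    rw [str_dn_iff h1 (by rw [up_ne _ h.symm]; exact h2), up_ne _ h.symm] at h3
    by_cases h4 : p + 1 = i
    · subst h4
      rw [up_same] at h3
      omega
    · rwa [up_ne _ h4] at h3
  · rintro ⟨⟨h2, h3⟩, h4⟩
    refine ⟨?_, h2, h4⟩
    rw [← up_dn h] at h4
    rw [str_up_iff hS]
    rw [str_up_iff h3, dn_ne _ h] at h4
    rcases h4 with h4 | h4
    · exact Or.inl h4
    · right
      by_cases h5 : i - 1 = p
      · rw [h5, dn_same] at h4
        rw [h5]
        omega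
      · rwa [dn_ne _ h5] at h4

open Classical in
/-- sum over the addable boxes -/
noncomputable def GG (l : ℕ) (ψ : ℕ → ℕ → ℚ) (μ : ℕ → ℕ) : ℚ :=
  ∑ i ∈ range l, if Str (up μ i) then ψ i (μ i) * H l (up μ i) else 0

open Classical in
theorem GG_rec {l : ℕ} (ψ : ℕ → ℕ → ℚ) {μ : ℕ → ℕ} (hS : Str μ) (hl : ∀ i, l ≤ i → μ i = 0) :
    GG l ψ μ = (∑ p ∈ range l, if 0 < μ p ∧ Str (dn μ p) then GG l ψ (dn μ p) else 0) +
      H l μ * ((∑ i ∈ range l, if Str (up μ i) then ψ i (μ i) else 0) -
        ∑ p ∈ range l, if 0 < μ p ∧ Str (dn μ p) then ψ p (μ p - 1) else 0) := by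
  -- expand the left-hand side
  have e1 : GG l ψ μ = ∑ i ∈ range l, ∑ p ∈ range l,
      if Str (up μ i) ∧ 0 < up μ i p ∧ Str (dn (up μ i) p) then
        ψ i (μ i) * H l (dn (up μ i) p) else 0 := by
    unfold GG
    refine sum_congr rfl fun i hi => ?_
    split_ifs with h
    · have hi' := mem_range.1 hi
      have h1 := H_rec h (l := l) (fun j hj => by rw [up_ne _ (by omega : j ≠ i)]; exact hl j hj)
        (by rw [sum_up hi']; omega)
      conv_lhs => rw [← h1]
      rw [mul_sum]
      refine sum_congr rfl fun p _ => ?_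
      by_cases h2 : 0 < up μ i p ∧ Str (dn (up μ i) p)
      · rw [if_pos h2, if_pos ⟨h, h2⟩]
      · rw [if_neg h2, if_neg (fun h3 => h2 h3.2), mul_zero]
    · symm
      refine sum_eq_zero fun p _ => ?_
      rw [if_neg (fun h3 => h h3.1)]
  -- expand the right-hand side
  have e2 : (∑ p ∈ range l, if 0 < μ p ∧ Str (dn μ p) then GG l ψ (dn μ p) else 0) =
      ∑ i ∈ range l, ∑ p ∈ range l,
        if (0 < μ p ∧ Str (dn μ p)) ∧ Str (up (dn μ p) i) then
          ψ i (dn μ p i) * H l (up (dn μ p) i) else 0 := by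
    rw [sum_comm]
    refine sum_congr rfl fun p _ => ?_
    split_ifs with h
    · unfold GG
      refine sum_congr rfl fun i _ => ?_
      by_cases h2 : Str (up (dn μ p) i)
      · rw [if_pos h2, if_pos ⟨h, h2⟩]
      · rw [if_neg h2, if_neg (fun h3 => h2 h3.2)]
    · symm
      refine sum_eq_zero fun i _ => ?_
      rw [if_neg (fun h3 => h h3.1)]
  rw [e1, e2, mul_sub, mul_sum, mul_sum, ← sum_sub_distrib, ← sum_add_distrib]
  refine sum_congr rfl fun i hi => ?_
  rw [← add_sum_erase _ _ hi, ← add_sum_erase (range l) (fun p =>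
    if (0 < μ p ∧ Str (dn μ p)) ∧ Str (up (dn μ p) i) then
          ψ i (dn μ p i) * H l (up (dn μ p) i) else 0) hi]
  have e3 : ∑ p ∈ (range l).erase i,
      (if Str (up μ i) ∧ 0 < up μ i p ∧ Str (dn (up μ i) p) then
        ψ i (μ i) * H l (dn (up μ i) p) else 0) =
      ∑ p ∈ (range l).erase i, (if (0 < μ p ∧ Str (dn μ p)) ∧ Str (up (dn μ p) i) then
          ψ i (dn μ p i) * H l (up (dn μ p) i) else 0) := by
    refine sum_congr rfl fun p hp => ?_
    have hne : i ≠ p := (ne_of_mem_erase hp).symm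
    have h1 := commute hS hne
    by_cases h2 : Str (up μ i) ∧ 0 < up μ i p ∧ Str (dn (up μ i) p)
    · rw [if_pos h2, if_pos (h1.1 h2), dn_ne _ hne, up_dn hne]
    · rw [if_neg h2, if_neg (fun h3 => h2 (h1.2 h3))]
  rw [e3, up_same, dn_up_same]
  have e4 : (if Str (up μ i) ∧ 0 < μ i + 1 ∧ Str μ then ψ i (μ i) * H l μ else 0) =
      H l μ * (if Str (up μ i) then ψ i (μ i) else 0) := by
    by_cases h : Str (up μ i)
    · rw [if_pos ⟨h, Nat.succ_pos _, hS⟩, if_pos h, mul_comm]
    · rw [if_neg (fun h3 => h h3.1), if_neg h, mul_zero]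
  have e5 : (if (0 < μ i ∧ Str (dn μ i)) ∧ Str (up (dn μ i) i) then
      ψ i (dn μ i i) * H l (up (dn μ i) i) else 0) =
      H l μ * (if 0 < μ i ∧ Str (dn μ i) then ψ i (μ i - 1) else 0) := by
    by_cases h : 0 < μ i ∧ Str (dn μ i)
    · rw [if_pos ⟨h, by rw [up_dn_same h.1]; exact hS⟩, if_pos h, dn_same, up_dn_same h.1, mul_comm]
    · rw [if_neg (fun h3 => h h3.1), if_neg h, mul_zero]
  rw [e4, e5]
  ring

/-- the weight of an addable box (row, length of the row before adding) -/
def cc (i a : ℕ) : ℚ := if a = 0 then i / 2 else (2 * i + 1 + a) / 2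

/-- the second weight -/
def ww (_i a : ℕ) : ℚ := if a = 0 then 1 else 2

open Classical in
theorem tele {l : ℕ} {μ : ℕ → ℕ} (hS : Str μ) (ψ : ℕ → ℕ → ℚ) (t : ℚ) (E : ℕ → ℕ → ℚ)
    (h1 : ∀ i, E i 0 = E 0 0)
    (h2 : E 0 (μ 0) = ψ 0 (μ 0))
    (h3 : ∀ i a b, 0 < b → b + 1 < a → E (i + 1) b - E i a = ψ (i + 1) b - ψ i (a - 1) - t)
    (h3' : ∀ i b, 0 < b → E (i + 1) b = E i (b + 1))
    (h4 : ∀ i a, 2 ≤ a → E (i + 1) 0 - E i a = ψ (i + 1) 0 - ψ i (a - 1) - t)
    (h5 : ∀ i, E (i + 1) 0 - E i 1 = - ψ i 0 - t) (hl : μ l = 0) :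
    (∑ i ∈ range (l + 1), if Str (up μ i) then ψ i (μ i) else 0) -
      (∑ p ∈ range (l + 1), if 0 < μ p ∧ Str (dn μ p) then ψ p (μ p - 1) else 0) =
    E 0 0 + t * ∑ p ∈ range (l + 1), if 0 < μ p ∧ Str (dn μ p) then 1 else 0 := by
  have key : ∀ m, (∑ i ∈ range (m + 1), if Str (up μ i) then ψ i (μ i) else 0) -
      (∑ p ∈ range m, if 0 < μ p ∧ Str (dn μ p) then ψ p (μ p - 1) else 0) -
      t * (∑ p ∈ range m, if 0 < μ p ∧ Str (dn μ p) then 1 else 0) = E m (μ m) := by
    intro m
    induction m with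
    | zero =>
      rw [sum_range_one, sum_range_zero, sum_range_zero, if_pos ((str_up_iff hS).2 (Or.inl rfl))]
      rw [h2]
      ring
    | succ m ih =>
      rw [sum_range_succ (fun i => if Str (up μ i) then ψ i (μ i) else 0) (m + 1),
        sum_range_succ (fun p => if 0 < μ p ∧ Str (dn μ p) then ψ p (μ p - 1) else 0) m,
        sum_range_succ (fun p => if 0 < μ p ∧ Str (dn μ p) then (1 : ℚ) else 0) m]
      have h6 : (if Str (up μ (m + 1)) then ψ (m + 1) (μ (m + 1)) else 0) -
          (if 0 < μ m ∧ Str (dn μ m) then ψ m (μ m - 1) else 0) -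
          t * (if 0 < μ m ∧ Str (dn μ m) then 1 else 0) = E (m + 1) (μ (m + 1)) - E m (μ m) := by
        rw [str_up_iff hS]
        simp only [Nat.add_sub_cancel]
        rcases Nat.eq_zero_or_pos (μ m) with h0 | h0
        · have h7 : μ (m + 1) = 0 := by
            rcases hS m with h | h <;> omega
          rw [h0, h7, if_neg (by omega), if_neg (by omega), if_neg (by omega), h1, h1 m]
          ring
        · rw [str_dn_iff hS h0]
          rcases Nat.eq_zero_or_pos (μ (m + 1)) with h8 | h8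
          · rw [h8, if_pos (show 0 < μ m ∧ (0 = 0 ∨ 0 + 1 < μ m) from ⟨h0, Or.inl rfl⟩),
              if_pos (show 0 < μ m ∧ (0 = 0 ∨ 0 + 1 < μ m) from ⟨h0, Or.inl rfl⟩)]
            by_cases h9 : μ m = 1
            · rw [h9, if_neg (by omega), h5]
              ring
            · rw [if_pos (by omega), h4 m (μ m) (by omega)]
              ring
          · by_cases h9 : μ (m + 1) + 1 < μ m
            · rw [if_pos (Or.inr h9), if_pos ⟨h0, Or.inr h9⟩, if_pos ⟨h0, Or.inr h9⟩,
                h3 m _ _ h8 h9]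
              ring
            · have h10 : μ m = μ (m + 1) + 1 := by
                rcases hS m with h | h <;> omega
              rw [if_neg (by omega), if_neg (by omega), if_neg (by omega), h3' m _ h8, ← h10]
              ring
      linarith
  have h6 := key l
  rw [sum_range_succ (fun p => if 0 < μ p ∧ Str (dn μ p) then ψ p (μ p - 1) else 0) l,
    sum_range_succ (fun p => if 0 < μ p ∧ Str (dn μ p) then (1 : ℚ) else 0) l]
  rw [hl, h1] at h6
  rw [hl, if_neg (by omega), if_neg (by omega)]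
  linarith

open Classical in
theorem tele_cc {l : ℕ} {μ : ℕ → ℕ} (hS : Str μ) (hl : μ l = 0) :
    (∑ i ∈ range (l + 1), if Str (up μ i) then cc i (μ i) else 0) -
      (∑ p ∈ range (l + 1), if 0 < μ p ∧ Str (dn μ p) then cc p (μ p - 1) else 0) =
    ∑ p ∈ range (l + 1), if 0 < μ p ∧ Str (dn μ p) then 1 else 0 := by
  have h := tele hS cc 1 (fun i a => if a = 0 then 0 else ((i : ℚ) + 1 + a) / 2) (by simp)
    (by
      unfold cc
      split_ifs with h
      · simp
      · push_cast; ring)
    (by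
      intro i a b h1 h2
      unfold cc
      rw [if_neg (by omega), if_neg (by omega), if_neg (by omega), if_neg (by omega)]
      obtain ⟨c, rfl⟩ : ∃ c, a = c + 1 := ⟨a - 1, by omega⟩
      rw [Nat.add_sub_cancel]
      push_cast
      ring)
    (by
      intro i b h1
      rw [if_neg (by omega), if_neg (by omega)]
      push_cast
      ring)
    (by
      intro i a h1
      unfold cc
      rw [if_pos rfl, if_neg (by omega), if_pos rfl, if_neg (by omega)]
      obtain ⟨c, rfl⟩ : ∃ c, a = c + 1 := ⟨a - 1, by omega⟩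
      rw [Nat.add_sub_cancel]
      push_cast
      ring)
    (by
      intro i
      unfold cc
      rw [if_pos rfl, if_neg (by omega), if_pos rfl]
      push_cast
      ring) hl
  rw [h]
  simp

open Classical in
theorem tele_ww {l : ℕ} {μ : ℕ → ℕ} (hS : Str μ) (hl : μ l = 0) :
    (∑ i ∈ range (l + 1), if Str (up μ i) then ww i (μ i) else 0) -
      (∑ p ∈ range (l + 1), if 0 < μ p ∧ Str (dn μ p) then ww p (μ p - 1) else 0) = 1 := by
  have h := tele hS ww 0 (fun i a => if a = 0 then 1 else 2) (by simp)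
    (by
      unfold ww
      split_ifs with h
      · simp
      · simp)
    (by
      intro i a b h1 h2
      unfold ww
      rw [if_neg (by omega), if_neg (by omega), if_neg (by omega)]
      ring)
    (by
      intro i b h1
      rw [if_neg (by omega), if_neg (by omega)])
    (by
      intro i a h1
      unfold ww
      rw [if_pos rfl, if_neg (by omega), if_neg (by omega)]
      ring)
    (by
      intro i
      unfold ww
      rw [if_pos rfl, if_neg (by omega)]
      ring) hl
  rw [h]
  simp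

end Pool.Agent.K4H91.Cde
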