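import Mathlib
import Pool.Agent.K4H91.Cde3

set_option autoImplicit false

namespace Pool.Agent.K4H91.Cde

open Finset

/-- content of the first `j` letters of a word -/
def SS {K m : ℕ} (w : Fin m → Fin K) (j : ℕ) (i : Fin K) : ℕ :=
  (univ.filter (fun t : Fin m => (t : ℕ) < j ∧ w t = i)).card

theorem SS_snoc_le {K m : ℕ} (w : Fin m → Fin K) (a : Fin K) {j : ℕ} (hj : j ≤ m) :
    SS (Fin.snoc w a : Fin (m + 1) → Fin K) j = SS w j := by
  funext i
  unfold SS
  rw [Fin.univ_castSuccEmb, filter_cons, if_neg (by simp; omega), filter_map, card_map]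
  congr 1
  ext t
  simp

theorem SS_snoc_last {K m : ℕ} (w : Fin m → Fin K) (a : Fin K) :
    SS (Fin.snoc w a : Fin (m + 1) → Fin K) (m + 1) =
      Function.update (SS w m) a (SS w m a + 1) := by
  funext i
  have h1 : (univ.filter (fun t : Fin m => (t : ℕ) < m + 1 ∧ w t = i)).card = SS w m i := by
    unfold SS
    congr 1
    ext t
    have := t.2
    simp only [mem_filter, mem_univ, true_and]
    constructor
    · rintro ⟨_, h⟩; exact ⟨this, h⟩
    · rintro ⟨_, h⟩; exact ⟨by omega, h⟩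
  have h2 : SS (Fin.snoc w a : Fin (m + 1) → Fin K) (m + 1) i =
      (if a = i then 1 else 0) + (univ.filter (fun t : Fin m => (t : ℕ) < m + 1 ∧ w t = i)).card := by
    unfold SS
    rw [Fin.univ_castSuccEmb, filter_cons]
    have h3 : ((univ.map Fin.castSuccEmb).filter (fun t : Fin (m + 1) => (t : ℕ) < m + 1 ∧
        (Fin.snoc w a : Fin (m + 1) → Fin K) t = i)).card =
        (univ.filter (fun t : Fin m => (t : ℕ) < m + 1 ∧ w t = i)).card := by
      rw [filter_map, card_map]
      congr 1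
      ext t
      simp
    split_ifs with h4 h5 h5
    · rw [card_cons, h3]; omega
    · simp at h4; exact absurd h4 h5
    · simp at h4; exact absurd h5 h4
    · rw [h3]; omega
  rw [h2, h1]
  by_cases h : a = i
  · subst h
    simp
    omega
  · rw [if_neg h, Function.update_of_ne (Ne.symm h)]
    omega

open Classical in
/-- the number of chains -/
noncomputable def AA (K : ℕ) (V : (Fin K → ℕ) → Prop) (m : ℕ) (μ : Fin K → ℕ) : ℚ :=
  ∑ w : Fin m → Fin K, if (∀ j ≤ m, V (SS w j)) ∧ SS w m = μ then 1 else 0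

open Classical in
/-- the sum of `g` over all elements of all chains -/
noncomputable def BB (K : ℕ) (V : (Fin K → ℕ) → Prop) (g : (Fin K → ℕ) → ℚ) (m : ℕ)
    (μ : Fin K → ℕ) : ℚ :=
  ∑ w : Fin m → Fin K, if (∀ j ≤ m, V (SS w j)) ∧ SS w m = μ then
    ∑ j ∈ range (m + 1), g (SS w j) else 0

theorem sum_snoc {K m : ℕ} (F : (Fin (m + 1) → Fin K) → ℚ) :
    ∑ w, F w = ∑ a : Fin K, ∑ w : Fin m → Fin K, F (Fin.snoc w a) := by
  rw [← Fintype.sum_prod_type']
  exact (Fintype.sum_equiv (Fin.snocEquiv (fun _ => Fin K)) _ _ (fun p => rfl)).symm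

theorem cond_snoc {K m : ℕ} (V : (Fin K → ℕ) → Prop) (w : Fin m → Fin K) (a : Fin K)
    (μ : Fin K → ℕ) :
    ((∀ j ≤ m + 1, V (SS (Fin.snoc w a : Fin (m + 1) → Fin K) j)) ∧
      SS (Fin.snoc w a : Fin (m + 1) → Fin K) (m + 1) = μ) ↔
    V μ ∧ (0 < μ a ∧ V (Function.update μ a (μ a - 1))) ∧ (∀ j ≤ m, V (SS w j)) ∧
      SS w m = Function.update μ a (μ a - 1) := by
  constructor
  · rintro ⟨h1, h2⟩
    have h3 := h1 (m + 1) le_rfl
    rw [h2] at h3
    have h4 : ∀ j ≤ m, V (SS w j) := fun j hj => by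
      rw [← SS_snoc_le w a hj]
      exact h1 j (by omega)
    rw [SS_snoc_last] at h2
    have h5 : μ a = SS w m a + 1 := by rw [← h2]; simp
    have h6 : SS w m = Function.update μ a (μ a - 1) := by
      funext i
      by_cases h : i = a
      · subst h
        rw [Function.update_self, h5, Nat.add_sub_cancel]
      · rw [Function.update_of_ne h, ← h2, Function.update_of_ne h]
    refine ⟨h3, ⟨by omega, ?_⟩, h4, h6⟩
    rw [← h6]
    exact h4 m le_rfl
  · rintro ⟨h1, ⟨h2, _⟩, h3, h4⟩
    have h5 : SS (Fin.snoc w a : Fin (m + 1) → Fin K) (m + 1) = μ := by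
      rw [SS_snoc_last, h4]
      funext i
      by_cases h : i = a
      · subst h
        simp
        omega
      · rw [Function.update_of_ne h, Function.update_of_ne h]
    refine ⟨fun j hj => ?_, h5⟩
    rcases Nat.lt_succ_iff_lt_or_eq.1 (Nat.lt_succ_of_le hj) with h | h
    · rw [SS_snoc_le w a (by omega)]
      exact h3 j (by omega)
    · rw [h, h5]
      exact h1

open Classical in
theorem AA_succ {K m : ℕ} (V : (Fin K → ℕ) → Prop) {μ : Fin K → ℕ} (hV : V μ) :
    AA K V (m + 1) μ = ∑ a : Fin K, if 0 < μ a ∧ V (Function.update μ a (μ a - 1)) then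
      AA K V m (Function.update μ a (μ a - 1)) else 0 := by
  unfold AA
  rw [sum_snoc]
  refine sum_congr rfl fun a _ => ?_
  simp only [cond_snoc]
  split_ifs with h
  · refine sum_congr rfl fun w _ => ?_
    by_cases h2 : (∀ j ≤ m, V (SS w j)) ∧ SS w m = Function.update μ a (μ a - 1)
    · rw [if_pos h2, if_pos ⟨hV, h, h2⟩]
    · rw [if_neg h2, if_neg (fun h3 => h2 h3.2.2)]
  · refine sum_eq_zero fun w _ => ?_
    rw [if_neg (fun h3 => h h3.2.1)]

open Classical in
theorem BB_succ {K m : ℕ} (V : (Fin K → ℕ) → Prop) (g : (Fin K → ℕ) → ℚ) {μ : Fin K → ℕ}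
    (hV : V μ) :
    BB K V g (m + 1) μ = (∑ a : Fin K, if 0 < μ a ∧ V (Function.update μ a (μ a - 1)) then
      BB K V g m (Function.update μ a (μ a - 1)) else 0) + g μ * AA K V (m + 1) μ := by
  rw [AA_succ V hV, mul_sum, ← sum_add_distrib]
  unfold BB AA
  rw [sum_snoc]
  refine sum_congr rfl fun a _ => ?_
  simp only [cond_snoc]
  split_ifs with h
  · rw [mul_sum, ← sum_add_distrib]
    refine sum_congr rfl fun w _ => ?_
    by_cases h2 : (∀ j ≤ m, V (SS w j)) ∧ SS w m = Function.update μ a (μ a - 1)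
    · rw [if_pos h2, if_pos ⟨hV, h, h2⟩, if_pos h2, sum_range_succ, mul_one]
      have h3 := (cond_snoc V w a μ).2 ⟨hV, h, h2⟩
      rw [h3.2]
      congr 1
      refine sum_congr rfl fun j hj => ?_
      rw [SS_snoc_le w a (by have := mem_range.1 hj; omega)]
    · rw [if_neg h2, if_neg (fun h3 => h2 h3.2.2), if_neg h2]
      simp
  · rw [sum_eq_zero fun w _ => by rw [if_neg (fun h3 => h h3.2.1)]]
    simp

/-- extension by zeros -/
def ext {K : ℕ} (μ : Fin K → ℕ) (i : ℕ) : ℕ := if h : i < K then μ ⟨i, h⟩ else 0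

theorem ext_fin {K : ℕ} (μ : Fin K → ℕ) (i : Fin K) : ext μ i = μ i := by
  unfold ext
  rw [dif_pos i.2]

theorem ext_ge {K : ℕ} (μ : Fin K → ℕ) {i : ℕ} (h : K ≤ i) : ext μ i = 0 := by
  unfold ext
  rw [dif_neg (by omega)]

theorem dn_ext {K : ℕ} (μ : Fin K → ℕ) (a : Fin K) :
    dn (ext μ) a = ext (Function.update μ a (μ a - 1)) := by
  funext i
  by_cases h : i = a
  · subst h
    rw [dn_same, ext_fin, ext_fin, Function.update_self]
  · rw [dn_ne _ h]
    unfold ext
    split_ifs with h2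
    · rw [Function.update_of_ne]
      intro h3
      apply h
      rw [← h3]
    · rfl

theorem str_ext {K : ℕ} (μ : Fin K → ℕ) :
    Str (ext μ) ↔ ∀ i j : Fin K, i < j → μ j = 0 ∨ μ j < μ i := by
  constructor
  · intro h i j hij
    have := h.lt (show (i : ℕ) < j from hij)
    rwa [ext_fin, ext_fin] at this
  · intro h i
    unfold ext
    by_cases h1 : i + 1 < K
    · rw [dif_pos h1, dif_pos (by omega)]
      exact h _ _ (by simp [Fin.lt_def])
    · left
      rw [dif_neg h1]

theorem sum_ext {K : ℕ} (μ : Fin K → ℕ) (F : ℕ → ℕ → ℚ) (h : ∀ i, F i 0 = 0) :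
    ∑ i ∈ range (K + 1), F i (ext μ i) = ∑ i : Fin K, F i (μ i) := by
  rw [sum_range_succ, ext_ge _ le_rfl, h, add_zero, ← Fin.sum_univ_eq_sum_range (fun i => F i (ext μ i))]
  refine sum_congr rfl fun i _ => ?_
  rw [ext_fin]

theorem size_ext {K : ℕ} (μ : Fin K → ℕ) : ∑ i ∈ range (K + 1), ext μ i = ∑ i : Fin K, μ i := by
  rw [sum_range_succ, ext_ge _ le_rfl, add_zero, ← Fin.sum_univ_eq_sum_range (fun i => ext μ i)]
  refine sum_congr rfl fun i _ => ?_
  rw [ext_fin]

open Classical in
/-- The chains are counted by the product formula, and the total down-degree is `GG cc`. -/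
theorem words {K : ℕ} (V : (Fin K → ℕ) → Prop)
    (hV1 : ∀ μ, V μ → Str (ext μ))
    (hV2 : ∀ μ a, V μ → 0 < μ a → Str (ext (Function.update μ a (μ a - 1))) →
      V (Function.update μ a (μ a - 1)))
    (D : (Fin K → ℕ) → ℚ)
    (hD : ∀ μ, D μ = ∑ a : Fin K, if 0 < μ a ∧ V (Function.update μ a (μ a - 1)) then 1 else 0) :
    ∀ (m : ℕ) (μ : Fin K → ℕ), V μ → ∑ i, μ i = m →
      AA K V m μ = H (K + 1) (ext μ) ∧ BB K V D m μ = GG (K + 1) cc (ext μ) := by
  have hV3 : ∀ (μ : Fin K → ℕ) (a : Fin K), V μ →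
      ((0 < μ a ∧ V (Function.update μ a (μ a - 1))) ↔
        (0 < ext μ a ∧ Str (dn (ext μ) a))) := by
    intro μ a h
    rw [ext_fin, dn_ext]
    exact ⟨fun h1 => ⟨h1.1, hV1 _ h1.2⟩, fun h1 => ⟨h1.1, hV2 _ _ h h1.1 h1.2⟩⟩
  have hsum : ∀ (μ : Fin K → ℕ) (F : (ℕ → ℕ) → ℕ → ℚ), V μ →
      ∑ p ∈ range (K + 1), (if 0 < ext μ p ∧ Str (dn (ext μ) p) then F (dn (ext μ) p) p else 0) =
      ∑ a : Fin K, if 0 < μ a ∧ V (Function.update μ a (μ a - 1)) then
        F (ext (Function.update μ a (μ a - 1))) a else 0 := by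
    intro μ F h
    rw [sum_range_succ, ext_ge _ le_rfl, if_neg (by omega), add_zero,
      ← Fin.sum_univ_eq_sum_range (fun p => if 0 < ext μ p ∧ Str (dn (ext μ) p) then
        F (dn (ext μ) p) p else 0)]
    refine sum_congr rfl fun a _ => ?_
    by_cases h1 : 0 < μ a ∧ V (Function.update μ a (μ a - 1))
    · rw [if_pos h1, if_pos ((hV3 μ a h).1 h1), dn_ext]
    · rw [if_neg h1, if_neg (fun h2 => h1 ((hV3 μ a h).2 h2))]
  have hG : ∀ μ, V μ → GG (K + 1) cc (ext μ) =
      (∑ a : Fin K, if 0 < μ a ∧ V (Function.update μ a (μ a - 1)) then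
        GG (K + 1) cc (ext (Function.update μ a (μ a - 1))) else 0) +
      D μ * H (K + 1) (ext μ) := by
    intro μ h
    rw [GG_rec cc (hV1 μ h) (fun i hi => ext_ge _ (by omega)), tele_cc (hV1 μ h) (ext_ge _ le_rfl),
      hsum μ (fun ν _ => GG (K + 1) cc ν) h, hsum μ (fun _ _ => 1) h, ← hD, mul_comm (H _ _)]
  intro m
  induction m with
  | zero =>
    intro μ h hs
    have h0 : ∀ i, μ i = 0 := by
      intro i
      have := (Finset.sum_eq_zero_iff.1 hs) i (mem_univ i)
      exact this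
    have h1 : ext μ = fun _ => 0 := by
      funext i
      unfold ext
      split_ifs
      · exact h0 _
      · rfl
    have hD0 : D μ = 0 := by
      rw [hD]
      refine sum_eq_zero fun a _ => ?_
      rw [if_neg]
      intro h2
      have := h0 a
      omega
    have hSS : ∀ w : Fin 0 → Fin K, SS w 0 = μ := by
      intro w
      funext i
      unfold SS
      rw [h0]
      simp
    constructor
    · rw [h1, H_zero]
      unfold AA
      rw [Fintype.sum_unique, if_pos]
      refine ⟨fun j hj => ?_, hSS _⟩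
      obtain rfl : j = 0 := by omega
      rw [hSS]
      exact h
    · rw [hG μ h, hD0]
      unfold BB
      rw [Fintype.sum_unique, if_pos ⟨fun j hj => by
        obtain rfl : j = 0 := by omega
        rw [hSS]
        exact h, hSS _⟩, zero_add, sum_range_one, hSS, hD0]
      rw [sum_eq_zero]
      · simp
      · intro a _
        rw [if_neg]
        intro h2
        have := h0 a
        omega
  | succ m ih =>
    intro μ h hs
    have hs' : ∀ a, 0 < μ a → ∑ i, Function.update μ a (μ a - 1) i = m := by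
      intro a ha
      have h1 : (∑ i, Function.update μ a (μ a - 1) i) + 1 = ∑ i, μ i := by
        rw [← add_sum_erase _ _ (mem_univ a), ← add_sum_erase univ μ (mem_univ a),
          Function.update_self]
        have : ∑ i ∈ univ.erase a, Function.update μ a (μ a - 1) i = ∑ i ∈ univ.erase a, μ i := by
          refine sum_congr rfl fun i hi => ?_
          rw [Function.update_of_ne (ne_of_mem_erase hi)]
        rw [this]
        omega
      omega
    have hA : AA K V (m + 1) μ = H (K + 1) (ext μ) := by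
      rw [AA_succ V h, ← H_rec (hV1 μ h) (fun i hi => ext_ge _ (by omega))
        (by rw [size_ext, hs]; omega), hsum μ (fun ν _ => H (K + 1) ν) h]
      refine sum_congr rfl fun a _ => ?_
      split_ifs with h1
      · exact (ih _ h1.2 (hs' a h1.1)).1
      · rfl
    refine ⟨hA, ?_⟩
    rw [BB_succ V D h, hA, hG μ h]
    congr 1
    refine sum_congr rfl fun a _ => ?_
    split_ifs with h1
    · exact (ih _ h1.2 (hs' a h1.1)).2
    · rfl

end Pool.Agent.K4H91.Cde
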