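import Mathlib
import Pool.Agent.K4H91.Cde4

set_option autoImplicit false

namespace Pool.Agent.K4H91.Cde

open Finset

open Classical in
theorem GG_ww {l : ℕ} : ∀ (N : ℕ) {μ : ℕ → ℕ}, Str μ → (∀ i, l ≤ i → μ i = 0) →
    ∑ i ∈ range (l + 1), μ i = N → GG (l + 1) ww μ = (N + 1) * H (l + 1) μ := by
  intro N
  induction N with
  | zero =>
    intro μ hS hl hN
    have h0 : ∀ i, μ i = 0 := by
      intro i
      by_cases hi : i < l + 1
      · exact (Finset.sum_eq_zero_iff.1 hN) i (mem_range.2 hi)
      · exact hl i (by omega)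
    rw [GG_rec ww hS (fun i hi => hl i (by omega)), tele_ww hS (hl l le_rfl), sum_eq_zero]
    · push_cast; ring
    · intro p _
      rw [if_neg]
      rw [h0]
      omega
  | succ N ih =>
    intro μ hS hl hN
    rw [GG_rec ww hS (fun i hi => hl i (by omega)), tele_ww hS (hl l le_rfl)]
    have h1 : ∑ p ∈ range (l + 1), (if 0 < μ p ∧ Str (dn μ p) then GG (l + 1) ww (dn μ p) else 0) =
        (N + 1) * H (l + 1) μ := by
      rw [← H_rec (l := l + 1) hS (fun i hi => hl i (by omega)) (by omega), mul_sum]
      refine sum_congr rfl fun p hp => ?_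
      have hp' := mem_range.1 hp
      split_ifs with h
      · refine ih h.2 ?_ ?_
        · intro i hi
          have : i ≠ p := by
            rintro rfl
            have := hl i hi
            omega
          rw [dn_ne _ this]
          exact hl i hi
        · have := sum_dn hp' h.1
          omega
      · simp
    rw [h1]
    push_cast
    ring

/-- the trapezoid -/
def lam (n k i : ℕ) : ℕ := if i ≤ k then n - 2 * i else 0

theorem lam_str {n k : ℕ} (h : 2 * k < n) : Str (lam n k) := by
  intro i
  unfold lam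
  by_cases h1 : i + 1 ≤ k
  · rw [if_pos h1, if_pos (by omega)]
    right
    omega
  · rw [if_neg h1]
    left
    rfl

theorem prod_ratio (n : ℕ) : ∀ k : ℕ, 2 * k < n →
    ∏ i ∈ range (k + 1), ff (n - 2 * i) 1 = ((n : ℚ) - 2 * k - 1) / (n + 1) := by
  intro k
  induction k with
  | zero =>
    intro _
    rw [prod_range_one]
    unfold ff
    simp
  | succ k ih =>
    intro hk
    rw [prod_range_succ, ih (by omega)]
    unfold ff
    rw [if_neg (by omega)]
    have h1 : ((n - 2 * (k + 1) : ℕ) : ℚ) = (n : ℚ) - 2 * (k + 1) := by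
      rw [Nat.cast_sub (by omega)]
      push_cast
      ring
    rw [h1]
    push_cast
    have h2 : (n : ℚ) + 1 ≠ 0 := by positivity
    have h3 : (n : ℚ) - 2 * (k + 1) + 1 ≠ 0 := by
      have : (2 * (k + 1) : ℚ) < n := by exact_mod_cast hk
      linarith
    have h4 : (n : ℚ) - 2 * k - 1 = (n : ℚ) - 2 * (k + 1) + 1 := by ring
    rw [h4]
    field_simp

theorem H_last {n k : ℕ} (h : 2 * k < n) :
    H (k + 2) (up (lam n k) (k + 1)) = H (k + 2) (lam n k) *
      (((∑ i ∈ range (k + 2), lam n k i : ℕ) + 1) * (((n : ℚ) - 2 * k - 1) / (n + 1))) := by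
  have hl : lam n k (k + 1) = 0 := by unfold lam; rw [if_neg (by omega)]
  unfold H
  rw [sum_up (by omega)]
  have h1 : ∏ j ∈ range (k + 2), (1 / ((up (lam n k) (k + 1) j).factorial : ℚ)) =
      ∏ j ∈ range (k + 2), (1 / ((lam n k j).factorial : ℚ)) := by
    rw [prod_range_succ, prod_range_succ (fun j => 1 / ((lam n k j).factorial : ℚ)) (k + 1),
      up_same, hl]
    congr 1
    refine prod_congr rfl fun j hj => ?_
    rw [up_ne _ (by have := mem_range.1 hj; omega)]
  have h2 : ∏ j ∈ range (k + 2), ∏ i ∈ range j, ff (up (lam n k) (k + 1) i) (up (lam n k) (k + 1) j) =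
      (∏ j ∈ range (k + 2), ∏ i ∈ range j, ff (lam n k i) (lam n k j)) *
        (((n : ℚ) - 2 * k - 1) / (n + 1)) := by
    rw [prod_range_succ, prod_range_succ (fun j => ∏ i ∈ range j, ff (lam n k i) (lam n k j)) (k + 1)]
    have h3 : ∏ j ∈ range (k + 1), ∏ i ∈ range j,
        ff (up (lam n k) (k + 1) i) (up (lam n k) (k + 1) j) =
        ∏ j ∈ range (k + 1), ∏ i ∈ range j, ff (lam n k i) (lam n k j) := by
      refine prod_congr rfl fun j hj => prod_congr rfl fun i hi => ?_
      have := mem_range.1 hj
      have := mem_range.1 hi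
      rw [up_ne _ (by omega), up_ne _ (by omega)]
    have h4 : ∏ i ∈ range (k + 1), ff (up (lam n k) (k + 1) i) (up (lam n k) (k + 1) (k + 1)) =
        ((n : ℚ) - 2 * k - 1) / (n + 1) := by
      rw [← prod_ratio n k h]
      refine prod_congr rfl fun i hi => ?_
      have := mem_range.1 hi
      rw [up_same, hl, up_ne _ (by omega)]
      unfold lam
      rw [if_pos (by omega)]
    have h5 : ∏ i ∈ range (k + 1), ff (lam n k i) (lam n k (k + 1)) = 1 := by
      refine prod_eq_one fun i _ => ?_
      rw [hl]
      unfold ff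
      rw [if_pos rfl]
    rw [h3, h4, h5]
    ring
  rw [h1, h2, Nat.factorial_succ]
  push_cast
  ring

open Classical in
theorem GG_cc {n k : ℕ} (h : 2 * k < n) :
    GG (k + 2) cc (lam n k) = H (k + 2) (lam n k) *
      ((∑ i ∈ range (k + 2), lam n k i : ℕ) + 1) * ((k + 1) * (n - k) / (n + 1)) := by
  have hl : lam n k (k + 1) = 0 := by unfold lam; rw [if_neg (by omega)]
  have hS := lam_str h
  have h1 := GG_ww (l := k + 1) _ hS (fun i hi => by unfold lam; rw [if_neg (by omega)]) rfl
  -- the last row
  have hlast : (if Str (up (lam n k) (k + 1)) then H (k + 2) (up (lam n k) (k + 1)) else 0) =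
      H (k + 2) (lam n k) *
      (((∑ i ∈ range (k + 2), lam n k i : ℕ) + 1) * (((n : ℚ) - 2 * k - 1) / (n + 1))) := by
    rw [← H_last h]
    split_ifs with h2
    · rfl
    · have h3 : n = 2 * k + 1 := by
        by_contra h4
        apply h2
        rw [str_up_iff hS]
        right
        rw [hl, Nat.add_sub_cancel]
        unfold lam
        rw [if_pos le_rfl]
        omega
      rw [H_last h, h3]
      push_cast
      ring
  have e1 : GG (k + 2) cc (lam n k) = ((n : ℚ) + 1) / 2 * (∑ i ∈ range (k + 1),
      if Str (up (lam n k) i) then H (k + 2) (up (lam n k) i) else 0) + ((k : ℚ) + 1) / 2 *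
      (if Str (up (lam n k) (k + 1)) then H (k + 2) (up (lam n k) (k + 1)) else 0) := by
    unfold GG
    rw [sum_range_succ]
    congr 1
    · rw [mul_sum]
      refine sum_congr rfl fun i hi => ?_
      have hi' := mem_range.1 hi
      split_ifs
      · have h3 : cc i (lam n k i) = ((n : ℚ) + 1) / 2 := by
          have h4 : lam n k i = n - 2 * i := by unfold lam; rw [if_pos (by omega)]
          unfold cc
          rw [h4, if_neg (by omega), Nat.cast_sub (by omega)]
          push_cast
          ring
        rw [h3]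
      · ring
    · rw [hl]
      unfold cc
      rw [if_pos rfl]
      push_cast
      split_ifs <;> ring
  have e2 : GG (k + 2) ww (lam n k) = 2 * (∑ i ∈ range (k + 1),
      if Str (up (lam n k) i) then H (k + 2) (up (lam n k) i) else 0) +
      (if Str (up (lam n k) (k + 1)) then H (k + 2) (up (lam n k) (k + 1)) else 0) := by
    unfold GG
    rw [sum_range_succ]
    congr 1
    · rw [mul_sum]
      refine sum_congr rfl fun i hi => ?_
      have hi' := mem_range.1 hi
      split_ifs
      · have h3 : ww i (lam n k i) = 2 := by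
          have h4 : lam n k i = n - 2 * i := by unfold lam; rw [if_pos (by omega)]
          unfold ww
          rw [h4, if_neg (by omega)]
        rw [h3]
      · ring
    · rw [hl]
      unfold ww
      rw [if_pos rfl]
      split_ifs <;> ring
  rw [hlast] at e1 e2
  have h5 : (n : ℚ) + 1 ≠ 0 := by positivity
  rw [e2] at h1
  rw [e1]
  have e3 : (k + 1 + 1 : ℕ) = k + 2 := rfl
  rw [e3] at h1
  generalize (∑ i ∈ range (k + 1),
      if Str (up (lam n k) i) then H (k + 2) (up (lam n k) i) else 0) = X at *
  generalize H (k + 2) (lam n k) = Y at *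
  generalize ((∑ i ∈ range (k + 2), lam n k i : ℕ) : ℚ) = Z at *
  have h6 : X = ((Z + 1) * Y - Y * ((Z + 1) * (((n : ℚ) - 2 * k - 1) / (n + 1)))) / 2 := by
    linarith
  rw [h6]
  field_simp
  ring

theorem ff_pos {a b : ℕ} (h : b = 0 ∨ b < a) : 0 < ff a b := by
  unfold ff
  split_ifs with h1
  · exact one_pos
  · have h2 : b < a := by omega
    have h3 : (b : ℚ) < a := by exact_mod_cast h2
    have h4 : (0 : ℚ) ≤ b := by positivity
    exact div_pos (by linarith) (by linarith)

theorem H_pos {l : ℕ} {μ : ℕ → ℕ} (hS : Str μ) : 0 < H l μ := by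
  unfold H
  refine mul_pos (by positivity) (mul_pos (prod_pos fun j _ => by positivity)
    (prod_pos fun j _ => prod_pos fun i hi => ff_pos (hS.lt (mem_range.1 hi))))

theorem size_lam (n : ℕ) : ∀ k : ℕ, 2 * k < n →
    (∑ i ∈ range (k + 2), lam n k i) = ∑ i ∈ range (k + 1), (n - 2 * i) := by
  intro k _
  rw [sum_range_succ]
  have : lam n k (k + 1) = 0 := by unfold lam; rw [if_neg (by omega)]
  rw [this, add_zero]
  refine sum_congr rfl fun i hi => ?_
  unfold lam
  rw [if_pos (by have := mem_range.1 hi; omega)]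

theorem size_eq (n : ℕ) : ∀ k : ℕ, 2 * k < n →
    ((∑ i ∈ range (k + 1), (n - 2 * i) : ℕ) : ℚ) = (k + 1) * (n - k) := by
  intro k
  induction k with
  | zero => intro _; simp
  | succ k ih =>
    intro h
    rw [sum_range_succ]
    have h1 := ih (by omega)
    push_cast at h1 ⊢
    have h2 : ((n - 2 * (k + 1) : ℕ) : ℚ) = n - 2 * (k + 1) := by
      rw [Nat.cast_sub (by omega)]
      push_cast
      ring
    rw [h1, h2]
    ring

end Pool.Agent.K4H91.Cde
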