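import Mathlib
import Pool.Agent.K4H91.Cde5

set_option autoImplicit false

namespace Pool.Agent.K4H91.Cde

open Finset

/-- add one to all parts -/
def up0 (ν : ℕ → ℕ) (i : ℕ) : ℕ := if ν i = 0 then 0 else ν i + 1

/-- add one to all parts and add a new part `1` -/
def up1 (ν : ℕ → ℕ) (i : ℕ) : ℕ :=
  if ν i = 0 then (if i = 0 ∨ ν (i - 1) ≠ 0 then 1 else 0) else ν i + 1

open Classical in
/-- strict partitions with `j` rows inside the trapezoid -/
noncomputable def VF : ℕ → ℕ → Finset (ℕ → ℕ)
  | 0, _ => {fun _ => 0}
  | _ + 1, 0 => {fun _ => 0}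
  | n + 1, j + 1 => if 2 * j ≤ n then (VF n (j + 1)).image up0 ∪ (VF n j).image up1
      else VF (n + 1) j

theorem up0_inj : Function.Injective up0 := by
  intro a b h
  funext i
  have := congrFun h i
  unfold up0 at this
  split_ifs at this <;> omega

theorem up1_inj : Function.Injective up1 := by
  intro a b h
  funext i
  have := congrFun h i
  unfold up1 at this
  split_ifs at this <;> omega

theorem str_zero {μ : ℕ → ℕ} (h : Str μ) {i j : ℕ} (hij : i ≤ j) (h0 : μ i = 0) : μ j = 0 := by
  rcases Nat.lt_or_eq_of_le hij with h1 | h1
  · rcases h.lt h1 with h2 | h2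
    · exact h2
    · omega
  · rw [← h1]; exact h0

theorem mem_VF : ∀ (n j : ℕ) (μ : ℕ → ℕ), μ ∈ VF n j ↔
    Str μ ∧ (∀ i, i < j → μ i ≤ n - 2 * i) ∧ ∀ i, j ≤ i → μ i = 0 := by
  classical
  have hzero : ∀ (n j : ℕ) (μ : ℕ → ℕ), (n = 0 ∨ j = 0) → (μ = (fun _ => 0) ↔
      Str μ ∧ (∀ i, i < j → μ i ≤ n - 2 * i) ∧ ∀ i, j ≤ i → μ i = 0) := by
    intro n j μ hnj
    constructor
    · rintro rfl
      exact ⟨fun i => Or.inl rfl, fun i _ => Nat.zero_le _, fun i _ => rfl⟩
    · rintro ⟨_, h2, h3⟩
      funext i
      by_cases hi : i < j
      · have := h2 i hi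
        omega
      · exact h3 i (by omega)
  intro n
  induction n with
  | zero =>
    intro j μ
    have : VF 0 j = {fun _ => 0} := by cases j <;> simp [VF]
    rw [this, mem_singleton]
    exact hzero 0 j μ (Or.inl rfl)
  | succ n ihn =>
    intro j
    induction j with
    | zero =>
      intro μ
      have : VF (n + 1) 0 = {fun _ => 0} := by simp [VF]
      rw [this, mem_singleton]
      exact hzero _ 0 μ (Or.inr rfl)
    | succ j ihj =>
      intro μ
      have hdef : VF (n + 1) (j + 1) = if 2 * j ≤ n then
        (VF n (j + 1)).image up0 ∪ (VF n j).image up1 else VF (n + 1) j := by rw [VF]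
      rw [hdef]
      split_ifs with hj
      · rw [mem_union, mem_image, mem_image]
        constructor
        · rintro (⟨ν, hν, rfl⟩ | ⟨ν, hν, rfl⟩)
          · rw [ihn] at hν
            obtain ⟨h1, h2, h3⟩ := hν
            refine ⟨fun i => ?_, fun i hi => ?_, fun i hi => ?_⟩
            · have := h1 i
              unfold up0
              split_ifs <;> omega
            · have := h2 i hi
              unfold up0
              split_ifs <;> omega
            · have := h3 i hi
              unfold up0
              rw [if_pos this]
          · rw [ihn] at hν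
            obtain ⟨h1, h2, h3⟩ := hν
            refine ⟨fun i => ?_, fun i hi => ?_, fun i hi => ?_⟩
            · have h4 := h1 i
              unfold up1
              rw [Nat.add_sub_cancel]
              by_cases ha : ν i = 0
              · have hb : ν (i + 1) = 0 := by omega
                left
                rw [if_pos hb, if_neg]
                omega
              · by_cases hb : ν (i + 1) = 0
                · right
                  rw [if_pos hb, if_pos (Or.inr ha), if_neg ha]
                  omega
                · right
                  rw [if_neg hb, if_neg ha]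
                  omega
            · unfold up1
              by_cases h5 : i < j
              · have := h2 i h5
                split_ifs <;> omega
              · have := h3 i (by omega)
                split_ifs <;> omega
            · have h5 := h3 i (by omega)
              have h6 := h3 (i - 1) (by omega)
              unfold up1
              rw [if_pos h5, if_neg]
              omega
        · rintro ⟨h1, h2, h3⟩
          have hStr : Str (fun i => μ i - 1) := by
            intro i
            show μ (i + 1) - 1 = 0 ∨ μ (i + 1) - 1 < μ i - 1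
            have := h1 i
            omega
          by_cases hone : ∃ i, μ i = 1
          · obtain ⟨i1, hi1⟩ := hone
            right
            have h5 : ∀ i, 2 ≤ μ i → i < i1 := by
              intro i hi
              by_contra hcon
              rcases Nat.lt_or_eq_of_le (not_lt.1 hcon) with h6 | h6
              · rcases h1.lt h6 with h7 | h7 <;> omega
              · subst h6; omega
            have h6 : i1 ≤ j := by
              by_contra hcon
              have := h3 i1 (by omega)
              omega
            refine ⟨fun i => μ i - 1, ?_, ?_⟩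
            · rw [ihn]
              refine ⟨hStr, fun i hi => ?_, fun i hi => ?_⟩
              · show μ i - 1 ≤ _
                have := h2 i (by omega)
                omega
              · show μ i - 1 = 0
                by_contra hcon
                have := h5 i (by omega)
                omega
            · funext i
              unfold up1
              simp only
              by_cases h7 : 2 ≤ μ i
              · rw [if_neg (by omega)]
                omega
              · rw [if_pos (by omega)]
                by_cases h8 : μ i = 1
                · rw [h8, if_pos]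
                  rcases Nat.eq_zero_or_pos i with h9 | h9
                  · exact Or.inl h9
                  · right
                    have h10 := h1 (i - 1)
                    rw [show i - 1 + 1 = i by omega] at h10
                    omega
                · have h9 : μ i = 0 := by omega
                  rw [h9, if_neg]
                  rintro (h10 | h10)
                  · subst h10
                    have := str_zero h1 (Nat.zero_le i1) h9
                    omega
                  · have h11 := h5 (i - 1) (by omega)
                    rcases Nat.eq_zero_or_pos i with h12 | h12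
                    · subst h12
                      have := str_zero h1 (Nat.zero_le i1) h9
                      omega
                    · have := str_zero h1 (show i ≤ i1 by omega) h9
                      omega
          · push Not at hone
            left
            refine ⟨fun i => μ i - 1, ?_, ?_⟩
            · rw [ihn]
              refine ⟨hStr, fun i hi => ?_, fun i hi => ?_⟩
              · show μ i - 1 ≤ _
                have := h2 i hi
                omega
              · show μ i - 1 = 0
                rw [h3 i hi]
            · funext i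
              unfold up0
              simp only
              have := hone i
              split_ifs <;> omega
      · rw [ihj]
        constructor
        · rintro ⟨h1, h2, h3⟩
          refine ⟨h1, fun i hi => ?_, fun i hi => h3 i (by omega)⟩
          rcases Nat.lt_succ_iff_lt_or_eq.1 hi with h | h
          · exact h2 i h
          · rw [h3 i (by omega)]; exact Nat.zero_le _
        · rintro ⟨h1, h2, h3⟩
          refine ⟨h1, fun i hi => h2 i (by omega), fun i hi => ?_⟩
          rcases Nat.lt_or_eq_of_le hi with h | h
          · exact h3 i h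
          · subst h
            have := h2 j (by omega)
            omega

theorem sum_VF {n j : ℕ} (h : 2 * j ≤ n) (g : (ℕ → ℕ) → ℚ) :
    ∑ μ ∈ VF (n + 1) (j + 1), g μ =
      ∑ ν ∈ VF n (j + 1), g (up0 ν) + ∑ ν ∈ VF n j, g (up1 ν) := by
  classical
  have hdef : VF (n + 1) (j + 1) = (VF n (j + 1)).image up0 ∪ (VF n j).image up1 := by
    rw [VF, if_pos h]
  rw [hdef, sum_union, sum_image up0_inj.injOn, sum_image up1_inj.injOn]
  rw [disjoint_left]
  intro μ h1 h2
  rw [mem_image] at h1 h2
  obtain ⟨ν, _, rfl⟩ := h1
  obtain ⟨ρ, hρ, h3⟩ := h2
  rw [mem_VF] at hρ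
  -- the first zero of `ρ`
  have h4 : ∃ i, ρ i = 0 := ⟨j, hρ.2.2 j le_rfl⟩
  have h5 := Nat.find_spec h4
  have h6 : up1 ρ (Nat.find h4) = 1 := by
    unfold up1
    rw [if_pos h5, if_pos]
    rcases Nat.eq_zero_or_pos (Nat.find h4) with h7 | h7
    · exact Or.inl h7
    · right
      exact Nat.find_min h4 (by omega)
  have h7 : up0 ν (Nat.find h4) ≠ 1 := by
    unfold up0
    split_ifs <;> omega
  rw [h3] at h6
  exact h7 h6

theorem VF_else {n j : ℕ} (h : ¬ 2 * j ≤ n) : VF (n + 1) (j + 1) = VF (n + 1) j := by
  rw [VF, if_neg h]

theorem card_VF : ∀ (n j : ℕ), 2 * j ≤ n + 2 → ((VF n j).card : ℚ) = ((n + 1).choose j : ℕ) := by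
  intro n
  induction n with
  | zero =>
    intro j hj
    have : VF 0 j = {fun _ => 0} := by cases j <;> simp [VF]
    rw [this]
    have : j = 0 ∨ j = 1 := by omega
    rcases this with rfl | rfl <;> simp
  | succ n ihn =>
    intro j
    induction j with
    | zero =>
      intro _
      have : VF (n + 1) 0 = {fun _ => 0} := by simp [VF]
      rw [this]
      simp
    | succ j ihj =>
      intro hj
      by_cases h : 2 * j ≤ n
      · have h1 := sum_VF h (fun _ => 1)
        simp only [sum_const, nsmul_eq_mul, mul_one] at h1
        rw [h1, ihn _ (by omega), ihn _ (by omega), Nat.choose_succ_succ (n + 1) j]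
        push_cast
        ring
      · rw [VF_else h, ihj (by omega)]
        have h2 : n + 1 + 1 = 2 * j + 1 := by omega
        rw [h2]
        congr 1
        exact (Nat.choose_symm_half j).symm

/-- indicator of a removable row -/
def rr (a b : ℕ) : ℚ := if 0 < a ∧ (b = 0 ∨ b + 1 < a) then 1 else 0

/-- down-degree -/
def rD (M : ℕ) (μ : ℕ → ℕ) : ℚ := ∑ i ∈ range M, rr (μ i) (μ (i + 1))

theorem rD_up0 (M : ℕ) (ν : ℕ → ℕ) : rD M (up0 ν) = rD M ν := by
  unfold rD
  refine sum_congr rfl fun i _ => ?_
  unfold rr
  congr 1
  rw [eq_iff_iff]
  unfold up0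
  split_ifs <;> (try simp only [false_or]) <;> omega

open Classical in
theorem rD_up1 {M j : ℕ} {ν : ℕ → ℕ} (hS : Str ν) (hj : ∀ i, j ≤ i → ν i = 0) (hM : j < M) :
    rD M (up1 ν) = rD M ν + if ∀ i, ν i ≠ 1 then 1 else 0 := by
  have h1 : ∀ i, rr (up1 ν i) (up1 ν (i + 1)) = rr (ν i) (ν (i + 1)) +
      ((if ν i = 0 ∧ (i = 0 ∨ ν (i - 1) ≠ 0) then 1 else 0) - if ν i = 1 then 1 else 0) := by
    intro i
    have h2 := hS i
    by_cases ha : ν i = 0
    · have hb : ν (i + 1) = 0 := by omega
      have e2 : up1 ν (i + 1) = 0 := by
        unfold up1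
        rw [if_pos hb, if_neg]
        rw [Nat.add_sub_cancel]
        omega
      by_cases hc : i = 0 ∨ ν (i - 1) ≠ 0
      · have e1 : up1 ν i = 1 := by
          unfold up1
          rw [if_pos ha, if_pos hc]
        rw [e1, e2, ha, hb, if_pos ⟨rfl, hc⟩]
        unfold rr
        simp
      · have e1 : up1 ν i = 0 := by
          unfold up1
          rw [if_pos ha, if_neg hc]
        rw [e1, e2, ha, hb, if_neg (fun h => hc h.2)]
        unfold rr
        simp
    · have e1 : up1 ν i = ν i + 1 := by
        unfold up1
        rw [if_neg ha]
      rw [if_neg (fun h => ha h.1 : ¬ (ν i = 0 ∧ (i = 0 ∨ ν (i - 1) ≠ 0))), e1]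
      by_cases hb : ν (i + 1) = 0
      · have e2 : up1 ν (i + 1) = 1 := by
          unfold up1
          rw [if_pos hb, if_pos]
          rw [Nat.add_sub_cancel]
          exact Or.inr ha
        rw [e2, hb]
        by_cases hc : ν i = 1
        · rw [hc, if_pos rfl]
          unfold rr
          norm_num
        · rw [if_neg hc]
          unfold rr
          rw [if_pos (by omega), if_pos ⟨by omega, Or.inl rfl⟩]
          ring
      · have e2 : up1 ν (i + 1) = ν (i + 1) + 1 := by
          unfold up1
          rw [if_neg hb]
        rw [e2, if_neg (show ¬ ν i = 1 by omega)]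
        unfold rr
        by_cases hc : ν (i + 1) + 1 < ν i
        · rw [if_pos (by omega), if_pos (by omega)]
          ring
        · rw [if_neg (by omega), if_neg (by omega)]
          ring
  unfold rD
  rw [sum_congr rfl (fun i _ => h1 i), sum_add_distrib, sum_sub_distrib]
  congr 1
  have h2 : ∀ m, ∑ i ∈ range m, (if ν i = 0 ∧ (i = 0 ∨ ν (i - 1) ≠ 0) then (1 : ℚ) else 0) =
      if m ≠ 0 ∧ ν (m - 1) = 0 then 1 else 0 := by
    intro m
    induction m with
    | zero => simp
    | succ m ih =>
      rw [sum_range_succ, ih, Nat.add_sub_cancel]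
      by_cases h3 : ν m = 0
      · by_cases h4 : m = 0
        · rw [if_neg (by omega), if_pos ⟨h3, Or.inl h4⟩, if_pos (by omega)]
          ring
        · by_cases h5 : ν (m - 1) = 0
          · rw [if_pos (by omega), if_neg (by omega), if_pos (by omega)]
            ring
          · rw [if_neg (by omega), if_pos (by omega), if_pos (by omega)]
            ring
      · have h5 : ¬ (m ≠ 0 ∧ ν (m - 1) = 0) := by
          rintro ⟨h6, h7⟩
          have := str_zero hS (show m - 1 ≤ m by omega) h7
          omega
        rw [if_neg h5, if_neg (by omega), if_neg (by omega)]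
        ring
  rw [h2, if_pos ⟨by omega, hj _ (by omega)⟩]
  by_cases h3 : ∀ i, ν i ≠ 1
  · rw [if_pos h3, sum_eq_zero]
    · ring
    · intro i _
      rw [if_neg (h3 i)]
  · rw [if_neg h3]
    push Not at h3
    obtain ⟨i0, hi0⟩ := h3
    rw [sum_eq_single i0]
    · rw [if_pos hi0]
      ring
    · intro i _ hne
      rw [if_neg]
      intro h4
      rcases lt_or_gt_of_ne hne with h5 | h5
      · rcases hS.lt h5 with h6 | h6 <;> omega
      · rcases hS.lt h5 with h6 | h6 <;> omega
    · intro h4
      exfalso
      apply h4
      rw [mem_range]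
      by_contra h5
      have := hj i0 (by omega)
      omega

open Classical in
theorem no_one {n j : ℕ} (h : 2 * j ≤ n) :
    ∑ ν ∈ VF (n + 1) (j + 1), (if ∀ i, ν i ≠ 1 then (1 : ℚ) else 0) = ((n + 1).choose (j + 1) : ℕ) := by
  rw [sum_VF h]
  have h1 : ∑ ν ∈ VF n (j + 1), (if ∀ i, up0 ν i ≠ 1 then (1 : ℚ) else 0) =
      ((n + 1).choose (j + 1) : ℕ) := by
    rw [← card_VF n (j + 1) (by omega)]
    rw [sum_congr rfl (fun ν _ => if_pos _)]
    · simp
    · intro ν _ i
      unfold up0
      split_ifs <;> omega
  have h2 : ∑ ν ∈ VF n j, (if ∀ i, up1 ν i ≠ 1 then (1 : ℚ) else 0) = 0 := by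
    refine sum_eq_zero fun ν hν => ?_
    rw [if_neg]
    push Not
    rw [mem_VF] at hν
    have h4 : ∃ i, ν i = 0 := ⟨j, hν.2.2 j le_rfl⟩
    have h5 := Nat.find_spec h4
    refine ⟨Nat.find h4, ?_⟩
    unfold up1
    rw [if_pos h5, if_pos]
    rcases Nat.eq_zero_or_pos (Nat.find h4) with h7 | h7
    · exact Or.inl h7
    · right
      exact Nat.find_min h4 (by omega)
  rw [h1, h2, add_zero]

theorem sum_rD (M : ℕ) : ∀ (n j : ℕ), 2 * j ≤ n → j < M →
    ∑ μ ∈ VF n (j + 1), rD M μ = n * ((n - 1).choose j : ℕ) := by
  classical
  have hz : rD M (fun _ => 0) = 0 := by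
    unfold rD rr
    simp
  intro n
  induction n with
  | zero =>
    intro j hj _
    have : VF 0 (j + 1) = {fun _ => 0} := by simp [VF]
    rw [this, sum_singleton, hz]
    simp
  | succ n ihn =>
    intro j
    induction j with
    | zero =>
      intro _ hM
      rw [sum_VF (by omega)]
      have h0 : VF n 0 = {fun _ => 0} := by cases n <;> simp [VF]
      rw [h0, sum_singleton, rD_up1 (j := 0) (fun i => Or.inl rfl) (fun i _ => rfl) hM, hz,
        if_pos (fun i => by omega)]
      have h1 : ∑ ν ∈ VF n (0 + 1), rD M (up0 ν) = ∑ ν ∈ VF n (0 + 1), rD M ν :=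
        sum_congr rfl fun ν _ => rD_up0 M ν
      rw [h1, ihn 0 (by omega) hM]
      simp
    | succ j ihj =>
      intro hj hM
      by_cases h : 2 * (j + 1) ≤ n
      · rw [sum_VF h]
        have h1 : ∑ ν ∈ VF n (j + 1 + 1), rD M (up0 ν) = ∑ ν ∈ VF n (j + 1 + 1), rD M ν :=
          sum_congr rfl fun ν _ => rD_up0 M ν
        have h2 : ∑ ν ∈ VF n (j + 1), rD M (up1 ν) = ∑ ν ∈ VF n (j + 1), rD M ν +
            ∑ ν ∈ VF n (j + 1), (if ∀ i, ν i ≠ 1 then (1 : ℚ) else 0) := by
          rw [← sum_add_distrib]
          refine sum_congr rfl fun ν hν => ?_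
          rw [mem_VF] at hν
          exact rD_up1 hν.1 hν.2.2 hM
        obtain ⟨n', rfl⟩ : ∃ n', n = n' + 1 := ⟨n - 1, by omega⟩
        rw [h1, h2, ihn (j + 1) h hM, ihn j (by omega) (by omega), no_one (by omega)]
        rw [Nat.add_sub_cancel, Nat.add_sub_cancel, Nat.choose_succ_succ n' j]
        push_cast
        ring
      · rw [VF_else h, ihj (by omega) (by omega)]
        have h2 : n = 2 * j + 1 := by omega
        subst h2
        rw [Nat.add_sub_cancel, Nat.choose_symm_half j]

end Pool.Agent.K4H91.Cde
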